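import Pool.Agent.H182R2.CG.GDefs

/-! Task G2_lower (helper315): the lower estimate on a union of successive sets. -/

set_option autoImplicit false

open Finset Filter Topology

namespace Pool.Agent.H182R2.CG

open Pool.Agent.H182R2.CB

variable {X : Type*} [NormedAddCommGroup X] [NormedSpace ℝ X]

theorem G2_lower (S : GCoord X) (m : ℕ) (v : ℕ → X) (G : ℕ → Finset ℕ) (c : ℝ) (hc : 0 < c)
    (hlt : ∀ i j, i < j → j < m → ∀ a ∈ G i, ∀ d ∈ G j, a < d)
    (hU : (range m).biUnion G ∈ S.fam)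
    (hbig : ∀ j < m, c ≤ ∑ k ∈ G j, |S.co k (v j)|)
    (hoff : ∀ i j, i < m → j < m → i ≠ j → ∑ k ∈ G j, |S.co k (v i)| ≤ c / (2 * m))
    (θ : ℕ → ℝ) :
    c / 2 * ∑ j ∈ range m, |θ j| ≤ ‖∑ j ∈ range m, θ j • v j‖ := by
  classical
  have hdisj : ∀ i ∈ range m, ∀ j ∈ range m, i ≠ j → Disjoint (G i) (G j) := by
    intro i hi j hj hij
    rw [Finset.mem_range] at hi hj
    rw [Finset.disjoint_left]
    intro a ha hb
    rcases lt_or_gt_of_ne hij with h | h
    · exact lt_irrefl _ (hlt i j h hj a ha a hb)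
    · exact lt_irrefl _ (hlt j i h hi a hb a ha)
  have h1 := S.le (∑ j ∈ range m, θ j • v j) _ hU
  rw [Finset.sum_biUnion hdisj] at h1
  refine le_trans ?_ h1
  obtain ⟨Θ, hΘ⟩ : ∃ Θ, Θ = ∑ j ∈ range m, |θ j| := ⟨_, rfl⟩
  have hΘ0 : 0 ≤ Θ := by
    rw [hΘ]
    exact Finset.sum_nonneg fun _ _ => abs_nonneg _
  have h2 : ∀ j ∈ range m, |θ j| * c - c / (2 * m) * Θ ≤
      ∑ k ∈ G j, |S.co k (∑ i ∈ range m, θ i • v i)| := by
    intro j hj
    have hj' := Finset.mem_range.mp hj
    have e3 : ∀ k ∈ G j, |θ j| * |S.co k (v j)| ≤ |S.co k (∑ i ∈ range m, θ i • v i)| +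
        ∑ i ∈ (range m).erase j, |θ i| * |S.co k (v i)| := by
      intro k _
      have e : S.co k (∑ i ∈ range m, θ i • v i) = ∑ i ∈ range m, θ i * S.co k (v i) := by
        rw [map_sum]
        refine Finset.sum_congr rfl fun i _ => ?_
        rw [map_smul, smul_eq_mul]
      have e2 := Finset.add_sum_erase (range m) (fun i => θ i * S.co k (v i)) hj
      have : θ j * S.co k (v j) = (∑ i ∈ range m, θ i * S.co k (v i)) -
          ∑ i ∈ (range m).erase j, θ i * S.co k (v i) := by
        rw [← e2]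
        ring
      rw [← abs_mul, this, e]
      refine (abs_sub _ _).trans (add_le_add le_rfl ?_)
      refine (Finset.abs_sum_le_sum_abs _ _).trans (le_of_eq ?_)
      exact Finset.sum_congr rfl fun i _ => abs_mul _ _
    have e4 := Finset.sum_le_sum e3
    rw [← Finset.mul_sum, Finset.sum_add_distrib, Finset.sum_comm] at e4
    have e5 : ∑ i ∈ (range m).erase j, ∑ k ∈ G j, |θ i| * |S.co k (v i)| ≤ c / (2 * m) * Θ := by
      rw [hΘ, Finset.mul_sum]
      refine (Finset.sum_le_sum (g := fun i => c / (2 * m) * |θ i|) fun i hi => ?_).trans ?_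
      · rw [Finset.mem_erase, Finset.mem_range] at hi
        rw [← Finset.mul_sum, mul_comm]
        exact mul_le_mul_of_nonneg_right (hoff i j hi.2 hj' hi.1) (abs_nonneg _)
      · refine Finset.sum_le_sum_of_subset_of_nonneg (Finset.erase_subset _ _) fun i _ _ => ?_
        positivity
    have e6 : |θ j| * c ≤ |θ j| * ∑ k ∈ G j, |S.co k (v j)| :=
      mul_le_mul_of_nonneg_left (hbig j hj') (abs_nonneg _)
    linarith
  refine le_trans ?_ (Finset.sum_le_sum h2)
  rw [Finset.sum_sub_distrib, ← Finset.sum_mul, ← hΘ, Finset.sum_const, Finset.card_range,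
    nsmul_eq_mul]
  have h3 : (m : ℝ) * (c / (2 * m) * Θ) ≤ c / 2 * Θ := by
    rcases Nat.eq_zero_or_pos m with h0 | h0
    · subst h0
      simp only [Nat.cast_zero, zero_mul]
      positivity
    · have hm : (m : ℝ) ≠ 0 := by positivity
      apply le_of_eq
      field_simp
  linarith

end Pool.Agent.H182R2.CG
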