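import Pool.Agent.H182R2.CG.GStubs

/-!
# Spreading lower estimate, flatness version
-/

namespace Pool.Agent.H182R2.CG.G3_spread

open Finset Filter Topology
open Pool.Agent.H182R2.CB Pool.Agent.H182R2.CG

variable {X : Type*} [NormedAddCommGroup X] [NormedSpace ℝ X]

/-- One step of the construction. -/
theorem G3s_step (S : GCoord X) (v : ℕ → X)
    (hnull : ∀ p, Tendsto (fun k => S.co p (v k)) atTop (𝓝 0)) (c : ℝ) (b : ℕ)
    (hbig : ∀ K, ∃ k ≥ K, ¬ S.Flat b c (v k)) (δ : ℝ) (hδ : 0 < δ) (hδc : δ ≤ c / 2)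
    (K P : ℕ) :
    ∃ (k : ℕ) (G : Finset ℕ) (n : ℕ), K < k ∧ ∑ q ∈ range (P + 1), |S.co q (v k)| ≤ δ ∧
      G ∈ loc S.fam b ∧ G ∈ S.fam ∧ (∀ a ∈ G, P < a) ∧ c / 2 ≤ ∑ q ∈ G, |S.co q (v k)| ∧
      (∀ F ∈ S.fam, (∀ i ∈ F, n ≤ i) → ∑ q ∈ F, |S.co q (v k)| ≤ δ) ∧ (∀ a ∈ G, a ≤ n) := by
  have h1 : Tendsto (fun k => ∑ q ∈ range (P + 1), |S.co q (v k)|) atTop (𝓝 0) := by
    have := tendsto_finset_sum (range (P + 1)) (fun q _ => (hnull q).abs)
    simpa using this
  obtain ⟨K1, hK1⟩ := eventually_atTop.1 ((h1.eventually (gt_mem_nhds hδ)).mono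
    (fun k hk => le_of_lt hk))
  obtain ⟨k, hk, hflat⟩ := hbig (max K1 (K + 1))
  obtain ⟨n, hn⟩ := S.tail (v k) δ hδ
  unfold GCoord.Flat at hflat
  push Not at hflat
  obtain ⟨F, hF, ⟨p, hp, hpb⟩, hFc⟩ := hflat
  have hk1 := hK1 k ((le_max_left _ _).trans hk)
  have hsub : F.filter (fun a => P < a) ⊆ F := Finset.filter_subset _ _
  refine ⟨k, F.filter (fun a => P < a), max n (F.sup id), ?_, hk1, ⟨F, hF, hsub, p, hp, hpb⟩,
    S.her F hF _ hsub, ?_, ?_, ?_, ?_⟩
  · have := (le_max_right K1 (K + 1)).trans hk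
    omega
  · intro a ha
    exact (Finset.mem_filter.1 ha).2
  · have e1 := Finset.sum_filter_add_sum_filter_not F (fun a => P < a)
      (fun q => |S.co q (v k)|)
    have e2 : ∑ q ∈ F.filter (fun a => ¬ P < a), |S.co q (v k)| ≤
        ∑ q ∈ range (P + 1), |S.co q (v k)| := by
      refine Finset.sum_le_sum_of_subset_of_nonneg ?_ (fun _ _ _ => abs_nonneg _)
      intro a ha
      have := (Finset.mem_filter.1 ha).2
      exact Finset.mem_range.2 (by omega)
    linarith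
  · intro F' hF' hn'
    exact hn F' hF' (fun i hi => (le_max_left _ _).trans (hn' i hi))
  · intro a ha
    exact (Finset.le_sup (f := id) (hsub ha)).trans (le_max_right _ _)

theorem G3_spread (S : GCoord X) (v : ℕ → X)
    (hnull : ∀ p, Tendsto (fun k => S.co p (v k)) atTop (𝓝 0)) (c : ℝ) (hc : 0 < c) (b : ℕ)
    (hbig : ∀ K, ∃ k ≥ K, ¬ S.Flat b c (v k)) (m L : ℕ) :
    ∃ k : ℕ → ℕ, StrictMono k ∧ (∀ j, L ≤ k j) ∧
      ∀ θ : ℕ → ℝ, c / 4 * ∑ j ∈ range m, |θ j| ≤ ‖∑ j ∈ range m, θ j • v (k j)‖ := by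
  obtain ⟨δ, hδ0, hδc, hδm⟩ : ∃ δ : ℝ, 0 < δ ∧ δ ≤ c / 2 ∧ (0 < m → δ ≤ c / 2 / (2 * m)) := by
    refine ⟨c / (4 * (m + 1)), by positivity, ?_, ?_⟩
    · rw [div_le_iff₀ (by positivity)]
      have : (0 : ℝ) ≤ m := Nat.cast_nonneg m
      nlinarith
    · intro hm
      have hm' : (0 : ℝ) < m := Nat.cast_pos.2 hm
      rw [div_div]
      apply div_le_div_of_nonneg_left hc.le (by positivity)
      linarith
  obtain ⟨n0, hn0⟩ := S.mult b m
  choose fk fG fn h1 h2 h3 h4 h5 h6 h7 h8 using G3s_step S v hnull c b hbig δ hδ0 hδc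
  obtain ⟨st, hst0, hst⟩ : ∃ st : ℕ → ℕ × ℕ, st 0 = (L, n0) ∧
      ∀ j, st (j + 1) = (fk (st j).1 (st j).2, max (st j).2 (fn (st j).1 (st j).2)) :=
    ⟨fun j => Nat.rec (L, n0) (fun _ s => (fk s.1 s.2, max s.2 (fn s.1 s.2))) j,
      rfl, fun j => rfl⟩
  have hPmono : Monotone (fun j => (st j).2) := by
    apply monotone_nat_of_le_succ
    intro j
    show (st j).2 ≤ (st (j + 1)).2
    rw [hst j]
    exact le_max_left _ _
  have hPn : ∀ j, n0 ≤ (st j).2 := by
    intro j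
    have := hPmono (Nat.zero_le j)
    simp only [hst0] at this
    exact this
  have hKlt : ∀ j, (st j).1 < (st (j + 1)).1 := by
    intro j
    rw [hst j]
    exact h1 _ _
  have hKmono : StrictMono (fun j => (st j).1) := strictMono_nat_of_lt_succ hKlt
  have hnP : ∀ i j, i < j → fn (st i).1 (st i).2 ≤ (st j).2 := by
    intro i j hij
    have e1 := hPmono (Nat.succ_le_of_lt hij)
    have e2 : fn (st i).1 (st i).2 ≤ (st (i + 1)).2 := by
      rw [hst i]
      exact le_max_right _ _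
    exact e2.trans e1
  have hlt : ∀ i j, i < j → ∀ a ∈ fG (st i).1 (st i).2, ∀ d ∈ fG (st j).1 (st j).2, a < d := by
    intro i j hij a ha d hd
    have e1 := h8 (st i).1 (st i).2 a ha
    have e2 := h5 (st j).1 (st j).2 d hd
    have e3 := hnP i j hij
    omega
  refine ⟨fun j => fk (st j).1 (st j).2, ?_, ?_, ?_⟩
  · intro i j hij
    have e1 := hKmono (Nat.succ_lt_succ hij)
    simp only [Nat.succ_eq_add_one, hst i, hst j] at e1
    exact e1
  · intro j
    have e1 := hKmono.monotone (Nat.zero_le j)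
    simp only [hst0] at e1
    have e2 := h1 (st j).1 (st j).2
    show L ≤ fk (st j).1 (st j).2
    omega
  · intro θ
    have key := G2_lower S m (fun j => v (fk (st j).1 (st j).2))
      (fun j => fG (st j).1 (st j).2) (c / 2) (half_pos hc) (fun i j hij _ => hlt i j hij)
      (hn0 _ (fun i _ => ⟨h3 _ _, fun a ha => by
        have e1 := h5 (st i).1 (st i).2 a ha
        have e2 := hPn i
        omega⟩) (fun i j hij _ => hlt i j hij))
      (fun j _ => h6 _ _) ?_ θ
    · have e : c / 2 / 2 = c / 4 := by ring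
      rw [e] at key
      exact key
    · intro i j hi hj hij
      refine le_trans ?_ (hδm (by omega))
      show ∑ q ∈ fG (st j).1 (st j).2, |S.co q (v (fk (st i).1 (st i).2))| ≤ δ
      rcases lt_or_gt_of_ne hij with h | h
      · apply h7 _ _ _ (h4 _ _)
        intro a ha
        have e1 := h5 (st j).1 (st j).2 a ha
        have e2 := hnP i j h
        omega
      · refine le_trans (Finset.sum_le_sum_of_subset_of_nonneg ?_ (fun _ _ _ => abs_nonneg _))
          (h2 (st i).1 (st i).2)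
        intro a ha
        have e1 := h8 (st j).1 (st j).2 a ha
        have e2 := hnP j i h
        exact Finset.mem_range.2 (by omega)

end Pool.Agent.H182R2.CG.G3_spread
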