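import Pool.Agent.H182R2.CG.GStubs

/-! # Spreading lower estimate, coordinate version -/

namespace Pool.Agent.H182R2.CG.G3c_spread

open Finset Filter Topology Pool.Agent.H182R2.CB Pool.Agent.H182R2.CG

variable {X : Type*} [NormedAddCommGroup X] [NormedSpace ℝ X]

/-- One step of the construction. -/
theorem G3c_step (S : GCoord X) (v : ℕ → X)
    (hnull : ∀ p, Tendsto (fun k => S.co p (v k)) atTop (𝓝 0)) (c : ℝ)
    (hbig : ∀ K, ∃ k ≥ K, ∃ p, c ≤ |S.co p (v k)|) (δ : ℝ) (hδ : 0 < δ) (K P : ℕ) :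
    ∃ k p n : ℕ, K < k ∧ (∀ q ≤ P, |S.co q (v k)| ≤ δ) ∧ c ≤ |S.co p (v k)| ∧
      (∀ q ≥ n, |S.co q (v k)| ≤ δ) := by
  have h1 : ∀ q : ℕ, ∀ᶠ k in atTop, |S.co q (v k)| ≤ δ := by
    intro q
    have h2 := (hnull q).abs
    rw [abs_zero] at h2
    exact (h2.eventually (gt_mem_nhds hδ)).mono (fun k hk => le_of_lt hk)
  have h3 : ∀ᶠ k in atTop, ∀ q ∈ Finset.range (P + 1), |S.co q (v k)| ≤ δ :=
    (Finset.eventually_all _).2 (fun q _ => h1 q)
  obtain ⟨K1, hK1⟩ := eventually_atTop.1 h3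
  obtain ⟨k, hk, p, hp⟩ := hbig (max K1 (K + 1))
  obtain ⟨n, hn⟩ := S.tail (v k) δ hδ
  refine ⟨k, p, n, ?_, ?_, hp, ?_⟩
  · have := le_max_right K1 (K + 1)
    omega
  · intro q hq
    refine hK1 k ?_ q (Finset.mem_range.2 (by omega))
    have := le_max_left K1 (K + 1)
    omega
  · intro q hq
    have h4 := hn {q} (S.sing q) (by
      intro i hi
      rw [Finset.mem_singleton] at hi
      omega)
    rwa [Finset.sum_singleton] at h4

theorem G3c_spread (S : GCoord X) (v : ℕ → X)
    (hnull : ∀ p, Tendsto (fun k => S.co p (v k)) atTop (𝓝 0)) (c : ℝ) (hc : 0 < c)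
    (hbig : ∀ K, ∃ k ≥ K, ∃ p, c ≤ |S.co p (v k)|) (m L : ℕ) :
    ∃ k : ℕ → ℕ, StrictMono k ∧ (∀ j, L ≤ k j) ∧
      ∀ θ : ℕ → ℝ, c / 2 * ∑ j ∈ range m, |θ j| ≤ ‖∑ j ∈ range m, θ j • v (k j)‖ := by
  obtain ⟨δ, hδ0, hδc, hδm⟩ : ∃ δ : ℝ, 0 < δ ∧ δ < c ∧ (0 < m → δ ≤ c / (2 * m)) := by
    refine ⟨c / (2 * (m + 1)), by positivity, ?_, ?_⟩
    · rw [div_lt_iff₀ (by positivity)]
      have : (0 : ℝ) ≤ m := Nat.cast_nonneg m
      nlinarith
    · intro hm
      have hm' : (0 : ℝ) < m := Nat.cast_pos.2 hm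
      apply div_le_div_of_nonneg_left hc.le (by positivity)
      linarith
  choose fk fp fn h1 h2 h3 h4 using G3c_step S v hnull c hbig δ hδ0
  obtain ⟨n0, hn0⟩ := S.mult S.b0 m
  obtain ⟨st, hst0, hst⟩ : ∃ st : ℕ → ℕ × ℕ, st 0 = (L, n0) ∧
      ∀ j, st (j + 1) = (fk (st j).1 (st j).2,
        max (st j).2 (max (fp (st j).1 (st j).2) (fn (st j).1 (st j).2))) :=
    ⟨fun j => Nat.rec (L, n0) (fun _ s => (fk s.1 s.2, max s.2 (max (fp s.1 s.2) (fn s.1 s.2)))) j,
      rfl, fun j => rfl⟩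
  have hPmono : Monotone (fun j => (st j).2) := by
    apply monotone_nat_of_le_succ
    intro j
    show (st j).2 ≤ (st (j + 1)).2
    rw [hst j]
    exact le_max_left _ _
  have hPm : ∀ j, n0 ≤ (st j).2 := by
    intro j
    have := hPmono (Nat.zero_le j)
    simp only [hst0] at this
    exact this
  have hKlt : ∀ j, (st j).1 < (st (j + 1)).1 := by
    intro j
    rw [hst j]
    exact h1 _ _
  have hKmono : StrictMono (fun j => (st j).1) := strictMono_nat_of_lt_succ hKlt
  have hpP : ∀ j, (st j).2 < fp (st j).1 (st j).2 := by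
    intro j
    by_contra hcon
    have h5 := h2 (st j).1 (st j).2 (fp (st j).1 (st j).2) (by omega)
    have h6 := h3 (st j).1 (st j).2
    linarith
  have hpP' : ∀ i j, i < j → fp (st i).1 (st i).2 ≤ (st j).2 := by
    intro i j hij
    have h5 := hPmono (Nat.succ_le_of_lt hij)
    have h6 : fp (st i).1 (st i).2 ≤ (st (i + 1)).2 := by
      rw [hst i]
      exact (le_max_left _ _).trans (le_max_right _ _)
    exact h6.trans h5
  have hnP' : ∀ i j, i < j → fn (st i).1 (st i).2 ≤ (st j).2 := by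
    intro i j hij
    have h5 := hPmono (Nat.succ_le_of_lt hij)
    have h6 : fn (st i).1 (st i).2 ≤ (st (i + 1)).2 := by
      rw [hst i]
      exact (le_max_right _ _).trans (le_max_right _ _)
    exact h6.trans h5
  refine ⟨fun j => fk (st j).1 (st j).2, ?_, ?_, ?_⟩
  · intro i j hij
    have h5 := hKmono (Nat.succ_lt_succ hij)
    simp only [Nat.succ_eq_add_one, hst i, hst j] at h5
    exact h5
  · intro j
    have h5 := hKmono.monotone (Nat.zero_le j)
    simp only [hst0] at h5
    have h6 := h1 (st j).1 (st j).2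
    show L ≤ fk (st j).1 (st j).2
    omega
  · intro θ
    have hlt : ∀ i j, i < j → fp (st i).1 (st i).2 < fp (st j).1 (st j).2 := by
      intro i j hij
      have h5 := hpP' i j hij
      have h6 := hpP j
      omega
    refine G2_lower S m (fun j => v (fk (st j).1 (st j).2)) (fun j => {fp (st j).1 (st j).2}) c hc
      ?_ ?_ ?_ ?_ θ
    · intro i j hij _ a ha d hd
      rw [Finset.mem_singleton] at ha hd
      rw [ha, hd]
      exact hlt i j hij
    · refine hn0 (fun j => {fp (st j).1 (st j).2}) ?_ ?_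
      · intro i _
        refine ⟨S.sing_loc _, ?_⟩
        intro k hk
        rw [Finset.mem_singleton] at hk
        rw [hk]
        have h5 := hPm i
        have h6 := hpP i
        omega
      · intro i j hij _ a ha d hd
        rw [Finset.mem_singleton] at ha hd
        rw [ha, hd]
        exact hlt i j hij
    · intro j _
      rw [Finset.sum_singleton]
      exact h3 _ _
    · intro i j hi hj hij
      rw [Finset.sum_singleton]
      refine le_trans ?_ (hδm (by omega))
      show |S.co (fp (st j).1 (st j).2) (v (fk (st i).1 (st i).2))| ≤ δ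
      rcases lt_or_gt_of_ne hij with h | h
      · apply h4
        have h5 := hnP' i j h
        have h6 := hpP j
        omega
      · apply h2
        exact hpP' j i h

end Pool.Agent.H182R2.CG.G3c_spread
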