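import Pool.Agent.H182R2.CG.GDefs

set_option autoImplicit false

/-! A Ptak type lemma: small convex combinations. -/

namespace Pool.Agent.H182R2.CG.G4x

open Filter Topology Set

variable {X : Type*} [NormedAddCommGroup X] [NormedSpace ℝ X] (co : ℕ → X →ₗ[ℝ] ℝ)
  (fam : Finset ℕ → Prop)

/-- mass on admissible extensions of `F` -/
def Sm (F : Finset ℕ) (ε : ℝ) (x : X) : Prop :=
  ∀ G : Finset ℕ, (∀ i ∈ G, ∀ f ∈ F, f < i) → fam (F ∪ G) → ∑ k ∈ G, |co k x| ≤ ε

/-- bounded and coordinatewise null -/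
def Nul (M : ℝ) (D : ℕ → X) : Prop :=
  (∀ j, ‖D j‖ ≤ M) ∧ ∀ k, ∀ ε : ℝ, 0 < ε → ∃ J, ∀ j, J ≤ j → |co k (D j)| ≤ ε

theorem mass_convex (G : Finset ℕ) (ε : ℝ) : Convex ℝ {x : X | ∑ k ∈ G, |co k x| ≤ ε} := by
  intro x hx y hy s t hs ht hst
  simp only [Set.mem_ofPred_eq] at hx hy ⊢
  calc ∑ k ∈ G, |co k (s • x + t • y)| ≤ ∑ k ∈ G, (s * |co k x| + t * |co k y|) := by
        refine Finset.sum_le_sum fun k _ => ?_
        rw [map_add, map_smul, map_smul, smul_eq_mul, smul_eq_mul]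
        refine (abs_add_le _ _).trans ?_
        rw [abs_mul, abs_mul, abs_of_nonneg hs, abs_of_nonneg ht]
    _ = s * ∑ k ∈ G, |co k x| + t * ∑ k ∈ G, |co k y| := by
        rw [Finset.sum_add_distrib, Finset.mul_sum, Finset.mul_sum]
    _ ≤ s * ε + t * ε := add_le_add (mul_le_mul_of_nonneg_left hx hs)
        (mul_le_mul_of_nonneg_left hy ht)
    _ = ε := by rw [← add_mul, hst, one_mul]

theorem sm_convex (F : Finset ℕ) (ε : ℝ) : Convex ℝ {x : X | Sm co fam F ε x} := by
  intro x hx y hy s t hs ht hst G hG hF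
  exact mass_convex co G ε (hx G hG hF) (hy G hG hF) hs ht hst

theorem co_convex (k : ℕ) (ε : ℝ) : Convex ℝ {x : X | |co k x| ≤ ε} := by
  have := mass_convex co {k} ε
  simpa using this

theorem hull_mono (D : ℕ → X) {i j : ℕ} (h : i ≤ j) :
    convexHull ℝ (D '' Ici j) ⊆ convexHull ℝ (D '' Ici i) :=
  convexHull_mono (image_mono (Ici_subset_Ici.2 h))

theorem hull_comp (D D' : ℕ → X) (h : ∀ i, D' i ∈ convexHull ℝ (D '' Ici i)) (L : ℕ) :
    convexHull ℝ (D' '' Ici L) ⊆ convexHull ℝ (D '' Ici L) := by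
  refine convexHull_min ?_ (convex_convexHull ℝ _)
  rintro _ ⟨i, hi, rfl⟩
  exact hull_mono D hi (h i)

theorem hull_norm (D : ℕ → X) (M : ℝ) (h : ∀ j, ‖D j‖ ≤ M) (L : ℕ) {x : X}
    (hx : x ∈ convexHull ℝ (D '' Ici L)) : ‖x‖ ≤ M := by
  have h1 : convexHull ℝ (D '' Ici L) ⊆ Metric.closedBall 0 M := by
    refine convexHull_min ?_ (convex_closedBall _ _)
    rintro _ ⟨i, _, rfl⟩
    simpa using h i
  simpa using h1 hx

theorem hull_co (D : ℕ → X) (k : ℕ) (ε : ℝ) (J : ℕ) (h : ∀ j, J ≤ j → |co k (D j)| ≤ ε) {x : X}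
    (hx : x ∈ convexHull ℝ (D '' Ici J)) : |co k x| ≤ ε := by
  have h1 : convexHull ℝ (D '' Ici J) ⊆ {x : X | |co k x| ≤ ε} := by
    refine convexHull_min ?_ (co_convex co k ε)
    rintro _ ⟨i, hi, rfl⟩
    exact h i hi
  exact h1 hx

theorem nul_comp (M : ℝ) (D D' : ℕ → X) (hD : Nul co M D)
    (h : ∀ i, D' i ∈ convexHull ℝ (D '' Ici i)) : Nul co M D' := by
  refine ⟨fun i => hull_norm D M hD.1 i (h i), fun k ε hε => ?_⟩
  obtain ⟨J, hJ⟩ := hD.2 k ε hε
  exact ⟨J, fun j hj => hull_co co D k ε J hJ (hull_mono D hj (h j))⟩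

/-- the property proved by induction -/
def PP (M : ℝ) (F : Finset ℕ) : Prop := ∀ D : ℕ → X, Nul co M D → ∀ ε : ℝ, 0 < ε → ∀ L : ℕ,
  ∃ x ∈ convexHull ℝ (D '' Ici L), Sm co fam F ε x

theorem step1 (M : ℝ) (F : Finset ℕ)
    (hF : ∀ k, (∀ f ∈ F, f < k) → PP co fam M (insert k F)) (b : ℕ) (D : ℕ → X)
    (hD : Nul co M D) (ε : ℝ) (hε : 0 < ε) (L : ℕ) :
    ∃ x ∈ convexHull ℝ (D '' Ici L), ∀ k < b, (∀ f ∈ F, f < k) →
      Sm co fam (insert k F) ε x := by
  induction b generalizing D L with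
  | zero => exact ⟨D L, subset_convexHull ℝ _ ⟨L, Set.self_mem_Ici, rfl⟩, fun k hk => absurd hk (by omega)⟩
  | succ b ih =>
    by_cases hb : ∀ f ∈ F, f < b
    · choose D' hD' hD'2 using fun i => hF b hb D hD ε hε i
      obtain ⟨x, hx, hx2⟩ := ih D' (nul_comp co M D D' hD hD') L
      refine ⟨x, hull_comp D D' hD' L hx, fun k hk hkF => ?_⟩
      rcases Nat.lt_succ_iff_lt_or_eq.1 hk with h | h
      · exact hx2 k h hkF
      · subst h
        have h1 : convexHull ℝ (D' '' Ici L) ⊆ {x : X | Sm co fam (insert k F) ε x} := by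
          refine convexHull_min ?_ (sm_convex co fam _ _)
          rintro _ ⟨i, _, rfl⟩
          exact hD'2 i
        exact h1 hx
    · obtain ⟨x, hx, hx2⟩ := ih D hD L
      refine ⟨x, hx, fun k hk hkF => ?_⟩
      rcases Nat.lt_succ_iff_lt_or_eq.1 hk with h | h
      · exact hx2 k h hkF
      · subst h
        exact absurd hkF hb

end Pool.Agent.H182R2.CG.G4x

namespace Pool.Agent.H182R2.CG.G4x

open Filter Topology Set

variable {X : Type*} [NormedAddCommGroup X] [NormedSpace ℝ X] (co : ℕ → X →ₗ[ℝ] ℝ)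
  (fam : Finset ℕ → Prop)

theorem nxt (M : ℝ) (F : Finset ℕ)
    (hF : ∀ k, (∀ f ∈ F, f < k) → PP co fam M (insert k F))
    (tail : ∀ x : X, ∀ ε : ℝ, 0 < ε → ∃ b : ℕ, ∀ G : Finset ℕ, fam G → (∀ i ∈ G, b ≤ i) →
      ∑ k ∈ G, |co k x| ≤ ε) (D : ℕ → X)
    (hD : Nul co M D) (ε : ℝ) (hε : 0 < ε) (L b : ℕ) :
    ∃ (x : X) (b' : ℕ), b ≤ b' ∧ x ∈ convexHull ℝ (D '' Ici L) ∧
      (∀ k < b, (∀ f ∈ F, f < k) → Sm co fam (insert k F) ε x) ∧ (∀ k < b, |co k x| ≤ ε) ∧
      ∀ G : Finset ℕ, fam G → (∀ i ∈ G, b' ≤ i) → ∑ k ∈ G, |co k x| ≤ ε := by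
  choose J hJ using fun k => hD.2 k ε hε
  obtain ⟨x, hx, hx2⟩ := step1 co fam M F hF b D hD ε hε (max L ((Finset.range b).sup J))
  obtain ⟨b', hb'⟩ := tail x ε hε
  refine ⟨x, max b b', le_max_left _ _, hull_mono D (le_max_left _ _) hx, hx2, fun k hk => ?_,
    fun G hG hG2 => hb' G hG fun i hi => (le_max_right _ _).trans (hG2 i hi)⟩
  refine hull_co co D k ε (J k) (hJ k) (hull_mono D ?_ hx)
  exact (Finset.le_sup (f := J) (Finset.mem_range.2 hk)).trans (le_max_right _ _)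

theorem step2 (her : ∀ F G : Finset ℕ, F ⊆ G → fam G → fam F)
    (le : ∀ F : Finset ℕ, fam F → ∀ x : X, ∑ k ∈ F, |co k x| ≤ ‖x‖)
    (tail : ∀ x : X, ∀ ε : ℝ, 0 < ε → ∃ b : ℕ, ∀ G : Finset ℕ, fam G → (∀ i ∈ G, b ≤ i) →
      ∑ k ∈ G, |co k x| ≤ ε) (M : ℝ) (F : Finset ℕ)
    (hF : ∀ k, (∀ f ∈ F, f < k) → PP co fam M (insert k F)) : PP co fam M F := by
  classical
  intro D hD ε hε L
  have hM : 0 ≤ M := (norm_nonneg _).trans (hD.1 0)
  obtain ⟨N, hN⟩ := exists_nat_ge (2 * M / ε + 1)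
  have hN1 : (1 : ℝ) ≤ N := by
    have : 0 ≤ 2 * M / ε := by positivity
    linarith
  have hNpos : (0 : ℝ) < N := by linarith
  have hNM : M ≤ N * (ε / 2) := by
    have h1 : 2 * M / ε ≤ N := by linarith
    rw [div_le_iff₀ hε] at h1
    linarith
  choose X' B' h1 h2 h3 h4 h5 using
    nxt co fam M F hF tail D hD (ε / 4) (by linarith) L
  obtain ⟨β, hβ⟩ : ∃ β : ℕ → ℕ, ∀ i, β (i + 1) = B' (β i) :=
    ⟨fun i => Nat.rec 0 (fun _ b => B' b) i, fun i => rfl⟩
  have hmono : Monotone β := monotone_nat_of_le_succ fun i => by rw [hβ]; exact h1 _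
  refine ⟨∑ i ∈ Finset.range N, (1 / N : ℝ) • X' (β i), ?_, ?_⟩
  · refine (convex_convexHull ℝ _).sum_mem (fun i _ => by positivity) ?_ fun i _ => h2 (β i)
    rw [Finset.sum_const, Finset.card_range, nsmul_eq_mul]
    field_simp
  · intro G hG hfam
    rcases G.eq_empty_or_nonempty with rfl | hne
    · simpa using hε.le
    have hfG : fam G := her _ _ Finset.subset_union_right hfam
    obtain ⟨k, hkG, hkmin⟩ : ∃ k ∈ G, ∀ i ∈ G, k ≤ i :=
      ⟨G.min' hne, G.min'_mem hne, fun i hi => G.min'_le i hi⟩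
    have hstep : ∀ i, ∑ j ∈ G, |co j (X' (β i))| ≤
        ε / 2 + (if β i ≤ k ∧ k < β (i + 1) then M else 0) := by
      intro i
      by_cases c1 : k < β i
      · rw [if_neg (fun h => absurd h.1 (not_le.2 c1)), add_zero]
        have e1 := Finset.add_sum_erase G (fun j => |co j (X' (β i))|) hkG
        rw [← e1]
        have e2 := h4 (β i) k c1
        have e3 := h3 (β i) k c1 (hG k hkG) (G.erase k) (by
          intro j hj f hf
          obtain ⟨hj1, hj2⟩ := Finset.mem_erase.1 hj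
          rcases Finset.mem_insert.1 hf with rfl | hf
          · exact lt_of_le_of_ne (hkmin j hj2) (Ne.symm hj1)
          · exact hG j hj2 f hf) (by
          have : insert k F ∪ G.erase k = F ∪ G := by
            ext j
            simp only [Finset.mem_union, Finset.mem_insert, Finset.mem_erase]
            constructor
            · rintro ((rfl | h) | h)
              · exact Or.inr hkG
              · exact Or.inl h
              · exact Or.inr h.2
            · rintro (h | h)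
              · exact Or.inl (Or.inr h)
              · by_cases hjk : j = k
                · exact Or.inl (Or.inl hjk)
                · exact Or.inr ⟨hjk, h⟩
          rw [this]
          exact hfam)
        linarith
      · by_cases c2 : k < β (i + 1)
        · rw [if_pos ⟨not_lt.1 c1, c2⟩]
          have e1 := (le G hfG (X' (β i))).trans (hull_norm D M hD.1 L (h2 (β i)))
          linarith
        · rw [if_neg (fun h => c2 h.2), add_zero]
          have e1 := h5 (β i) G hfG (fun j hj => by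
            rw [← hβ]
            exact (not_lt.1 c2).trans (hkmin j hj))
          linarith
    have hcount : ∑ i ∈ Finset.range N, (if β i ≤ k ∧ k < β (i + 1) then M else 0) ≤ M := by
      rw [← Finset.sum_filter, Finset.sum_const, nsmul_eq_mul]
      have hc : ((Finset.range N).filter fun i => β i ≤ k ∧ k < β (i + 1)).card ≤ 1 := by
        rw [Finset.card_le_one]
        intro i hi j hj
        obtain ⟨-, hi1, hi2⟩ := Finset.mem_filter.1 hi
        obtain ⟨-, hj1, hj2⟩ := Finset.mem_filter.1 hj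
        rcases lt_trichotomy i j with h | h | h
        · have := hmono (show i + 1 ≤ j from h)
          omega
        · exact h
        · have := hmono (show j + 1 ≤ i from h)
          omega
      have hc' : ((((Finset.range N).filter fun i => β i ≤ k ∧ k < β (i + 1)).card : ℕ) : ℝ) ≤ 1 := by
        exact_mod_cast hc
      nlinarith
    calc ∑ j ∈ G, |co j (∑ i ∈ Finset.range N, (1 / N : ℝ) • X' (β i))|
        ≤ ∑ j ∈ G, ∑ i ∈ Finset.range N, (1 / N : ℝ) * |co j (X' (β i))| := by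
          refine Finset.sum_le_sum fun j _ => ?_
          rw [map_sum]
          refine (Finset.abs_sum_le_sum_abs _ _).trans (le_of_eq ?_)
          refine Finset.sum_congr rfl fun i _ => ?_
          rw [map_smul, smul_eq_mul, abs_mul, abs_of_nonneg (by positivity : (0 : ℝ) ≤ 1 / N)]
      _ = (1 / N : ℝ) * ∑ i ∈ Finset.range N, ∑ j ∈ G, |co j (X' (β i))| := by
          rw [Finset.sum_comm, Finset.mul_sum]
          exact Finset.sum_congr rfl fun i _ => (Finset.mul_sum _ _ _).symm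
      _ ≤ (1 / N : ℝ) * (N * (ε / 2) + M) := by
          refine mul_le_mul_of_nonneg_left ?_ (by positivity)
          refine (Finset.sum_le_sum fun i _ => hstep i).trans ?_
          rw [Finset.sum_add_distrib, Finset.sum_const, Finset.card_range, nsmul_eq_mul]
          linarith
      _ ≤ (1 / N : ℝ) * (N * ε) := by
          refine mul_le_mul_of_nonneg_left ?_ (by positivity)
          linarith
      _ = ε := by field_simp

end Pool.Agent.H182R2.CG.G4x

namespace Pool.Agent.H182R2.CG.G4x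

open Filter Topology Set

variable {X : Type*} [NormedAddCommGroup X] [NormedSpace ℝ X] (co : ℕ → X →ₗ[ℝ] ℝ)
  (fam : Finset ℕ → Prop)

/-- one more element -/
def rel (F' F : Finset ℕ) : Prop := ∃ k, (∀ f ∈ F, f < k) ∧ F' = insert k F ∧ fam F'

theorem rel_wf (her : ∀ F G : Finset ℕ, F ⊆ G → fam G → fam F)
    (wf : ∀ k : ℕ → ℕ, StrictMono k → ∃ n, ¬ fam ((Finset.range n).image k)) :
    WellFounded (rel fam) := by
  rw [wellFounded_iff_isEmpty_descending_chain]
  refine ⟨fun ⟨f, hf⟩ => ?_⟩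
  choose k hk1 hk2 hk3 using hf
  have hm : ∀ n, k n ∈ f (n + 1) := fun n => by
    rw [hk2 n]; exact Finset.mem_insert_self _ _
  have hmono : Monotone f := monotone_nat_of_le_succ fun n => by
    rw [hk2 n]; exact Finset.subset_insert _ _
  have hsm : StrictMono k := strictMono_nat_of_lt_succ fun n => hk1 (n + 1) (k n) (hm n)
  obtain ⟨n, hn⟩ := wf k hsm
  apply hn
  refine her _ (f (n + 1)) ?_ (hk3 n)
  intro x hx
  obtain ⟨i, hi, rfl⟩ := Finset.mem_image.1 hx
  exact hmono (by have := Finset.mem_range.1 hi; omega : i + 1 ≤ n + 1) (hm i)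

theorem ptak (her : ∀ F G : Finset ℕ, F ⊆ G → fam G → fam F)
    (le : ∀ F : Finset ℕ, fam F → ∀ x : X, ∑ k ∈ F, |co k x| ≤ ‖x‖)
    (tail : ∀ x : X, ∀ ε : ℝ, 0 < ε → ∃ b : ℕ, ∀ G : Finset ℕ, fam G → (∀ i ∈ G, b ≤ i) →
      ∑ k ∈ G, |co k x| ≤ ε)
    (wf : ∀ k : ℕ → ℕ, StrictMono k → ∃ n, ¬ fam ((Finset.range n).image k)) (M : ℝ)
    (F : Finset ℕ) : PP co fam M F := by
  classical
  induction F using (rel_wf fam her wf).induction with
  | h F ih =>
    refine step2 co fam her le tail M F fun k hk => ?_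
    by_cases hf : fam (insert k F)
    · exact ih _ ⟨k, hk, rfl, hf⟩
    · intro D _ ε _ L
      refine ⟨D L, subset_convexHull ℝ _ ⟨L, Set.self_mem_Ici, rfl⟩, fun G _ hG => ?_⟩
      exact absurd (her _ _ Finset.subset_union_left hG) hf

end Pool.Agent.H182R2.CG.G4x

namespace Pool.Agent.H182R2.CG.G4x

open Filter Topology Set

variable {X : Type*} [NormedAddCommGroup X] [NormedSpace ℝ X]

theorem hull_finsupp (D : ℕ → X) (L : ℕ) {x : X} (hx : x ∈ convexHull ℝ (D '' Ici L)) :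
    ∃ θ : ℕ →₀ ℝ, (∀ j, 0 ≤ θ j) ∧ (θ.sum fun _ c => c) = 1 ∧ (∀ j < L, θ j = 0) ∧
      (θ.sum fun j c => c • D j) = x := by
  have h1 : convexHull ℝ (D '' Ici L) ⊆ {x : X | ∃ θ : ℕ →₀ ℝ, (∀ j, 0 ≤ θ j) ∧
      (θ.sum fun _ c => c) = 1 ∧ (∀ j < L, θ j = 0) ∧ (θ.sum fun j c => c • D j) = x} := by
    refine convexHull_min ?_ ?_
    · rintro _ ⟨i, hi, rfl⟩
      refine ⟨Finsupp.single i 1, fun j => ?_, ?_, fun j hj => ?_, ?_⟩
      · rw [Finsupp.single_apply]
        split_ifs <;> norm_num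
      · rw [Finsupp.sum_single_index rfl]
      · rw [Finsupp.single_apply, if_neg]
        rintro rfl
        exact absurd hi (not_le.2 hj)
      · rw [Finsupp.sum_single_index (by simp), one_smul]
    · rintro x ⟨θ, a1, a2, a3, a4⟩ y ⟨η, b1, b2, b3, b4⟩ s t hs ht hst
      refine ⟨s • θ + t • η, fun j => ?_, ?_, fun j hj => ?_, ?_⟩
      · simp only [Finsupp.add_apply, Finsupp.smul_apply, smul_eq_mul]
        have := a1 j
        have := b1 j
        positivity
      · rw [Finsupp.sum_add_index' (fun _ => rfl) (fun _ _ _ => rfl),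
          Finsupp.sum_smul_index' (fun _ => rfl), Finsupp.sum_smul_index' (fun _ => rfl)]
        simp only [smul_eq_mul]
        rw [← Finsupp.mul_sum, ← Finsupp.mul_sum, a2, b2, mul_one, mul_one, hst]
      · simp only [Finsupp.add_apply, Finsupp.smul_apply, smul_eq_mul, a3 j hj, b3 j hj,
          mul_zero, add_zero]
      · rw [Finsupp.sum_add_index' (fun _ => by simp) (fun _ _ _ => add_smul _ _ _),
          Finsupp.sum_smul_index' (fun _ => by simp), Finsupp.sum_smul_index' (fun _ => by simp)]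
        rw [← a4, ← b4, Finsupp.smul_sum, Finsupp.smul_sum]
        simp only [smul_eq_mul, mul_smul]
  exact h1 hx

end Pool.Agent.H182R2.CG.G4x

namespace Pool.Agent.H182R2.CG

open Filter Topology

variable {X : Type*} [NormedAddCommGroup X] [NormedSpace ℝ X]

/-- Small convex combinations of a bounded coordinatewise null sequence. -/
theorem G4_convex (S : GCoord X) (D : ℕ → X) (M : ℝ) (hM : ∀ j, ‖D j‖ ≤ M)
    (hnull : ∀ p, Tendsto (fun k => S.co p (D k)) atTop (𝓝 0)) (ε : ℝ) (hε : 0 < ε) (L : ℕ) :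
    ∃ θ : ℕ →₀ ℝ, (∀ j, 0 ≤ θ j) ∧ (∀ j < L, θ j = 0) ∧ (θ.sum fun _ r => r) = 1 ∧
      ‖θ.sum fun j r => r • D j‖ ≤ ε := by
  have h := G4x.ptak (fun k => (S.co k).toLinearMap) (fun F => F ∈ S.fam)
    (fun F G hFG hG => S.her G hG F hFG) (fun F hF x => S.le x F hF)
    (fun x ε hε => S.tail x ε hε) (fun k hk => S.wf k hk) M ∅ D
    ⟨hM, fun p ε hε => by
      have h1 := (hnull p).abs
      rw [abs_zero] at h1
      have h2 := h1.eventually (eventually_le_nhds hε)
      exact eventually_atTop.1 h2⟩ (ε / 2) (by linarith) L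
  obtain ⟨x, hx, hx2⟩ := h
  obtain ⟨θ, t1, t2, t3, t4⟩ := G4x.hull_finsupp D L hx
  refine ⟨θ, t1, t3, t2, ?_⟩
  rw [t4]
  obtain ⟨F, hF, hF2⟩ := S.ge x (ε / 2) (by linarith)
  have h3 : ∑ k ∈ F, |S.co k x| ≤ ε / 2 := hx2 F (fun i _ f hf => absurd hf (by simp)) (by
    rw [Finset.empty_union]; exact hF)
  linarith

end Pool.Agent.H182R2.CG
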