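import Pool.Agent.H182R2.CB.NDefs

/-!
# Multiplicative regular families: definitions

MP_7f333f_an, negative part for a general class of combinatorial spaces (all the Schreier
families `S_ξ`).
-/

namespace Pool.Agent.H182R2.CG

open Pool.Agent.H182R2.CB

/-- The finite sets that lie in a member of `𝓕` meeting `[0,b]`. -/
def loc (𝓕 : Set (Finset ℕ)) (b : ℕ) : Set (Finset ℕ) := {G | ∃ F ∈ 𝓕, G ⊆ F ∧ ∃ p ∈ F, p ≤ b}

/-- A family is multiplicative if it has a member with at least two elements and if, for all `b`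
and `m`, every union of `m` successive sets of `loc 𝓕 b` that is far enough out is in `𝓕`. -/
def IsMult (𝓕 : Set (Finset ℕ)) : Prop :=
  (∃ F ∈ 𝓕, 2 ≤ F.card) ∧
  ∀ b m : ℕ, ∃ n : ℕ, ∀ G : ℕ → Finset ℕ, (∀ i < m, G i ∈ loc 𝓕 b ∧ ∀ k ∈ G i, n ≤ k) →
    (∀ i j, i < j → j < m → ∀ a ∈ G i, ∀ c ∈ G j, a < c) → (Finset.range m).biUnion G ∈ 𝓕

/-- `S₁[𝓖]`: the unions of `n ≤ min + 1` successive members of `𝓖`. -/
def sch (𝓖 : Set (Finset ℕ)) : Set (Finset ℕ) :=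
  {F | ∃ (n : ℕ) (G : ℕ → Finset ℕ), (∀ i < n, G i ∈ 𝓖) ∧
    (∀ i j, i < j → j < n → ∀ a ∈ G i, ∀ c ∈ G j, a < c) ∧
    F = (Finset.range n).biUnion G ∧ ∀ p ∈ F, n ≤ p + 1}

/-- The limit of a sequence of families: the sets `F ∈ 𝓖 n` with `n ≤ min F`. -/
def limFam (𝓖 : ℕ → Set (Finset ℕ)) : Set (Finset ℕ) := {F | ∃ n, F ∈ 𝓖 n ∧ ∀ p ∈ F, n ≤ p}

/-- Coordinates on a combinatorial space, with the multiplicativity of the family. -/
structure GCoord (X : Type*) [NormedAddCommGroup X] [NormedSpace ℝ X] where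
  fam : Set (Finset ℕ)
  her : ∀ F ∈ fam, ∀ G ⊆ F, G ∈ fam
  sing : ∀ p : ℕ, ({p} : Finset ℕ) ∈ fam
  wf : ∀ f : ℕ → ℕ, StrictMono f → ∃ n, (Finset.range n).image f ∉ fam
  b0 : ℕ
  sing_loc : ∀ p : ℕ, ({p} : Finset ℕ) ∈ loc fam b0
  mult : ∀ b m : ℕ, ∃ n : ℕ, ∀ G : ℕ → Finset ℕ, (∀ i < m, G i ∈ loc fam b ∧ ∀ k ∈ G i, n ≤ k) →
    (∀ i j, i < j → j < m → ∀ a ∈ G i, ∀ c ∈ G j, a < c) → (Finset.range m).biUnion G ∈ fam
  co : ℕ → X →L[ℝ] ℝ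
  u : ℕ → X
  co_u : ∀ k j, co k (u j) = if k = j then 1 else 0
  norm_u : ∀ k, ‖u k‖ ≤ 1
  le : ∀ x, ∀ F ∈ fam, ∑ k ∈ F, |co k x| ≤ ‖x‖
  ge : ∀ x, ∀ ε : ℝ, 0 < ε → ∃ F ∈ fam, ‖x‖ ≤ ∑ k ∈ F, |co k x| + ε
  tail : ∀ x, ∀ ε : ℝ, 0 < ε → ∃ n : ℕ, ∀ F ∈ fam, (∀ i ∈ F, n ≤ i) → ∑ k ∈ F, |co k x| ≤ ε

/-- `x` is `η`-flat at level `b`: its mass on every member of the family that meets `[0,b]` is at
most `η`. -/
def GCoord.Flat {X : Type*} [NormedAddCommGroup X] [NormedSpace ℝ X] (S : GCoord X) (b : ℕ)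
    (η : ℝ) (x : X) : Prop :=
  ∀ F ∈ S.fam, (∃ p ∈ F, p ≤ b) → ∑ k ∈ F, |S.co k x| ≤ η

section basic

variable {X : Type*} [NormedAddCommGroup X] [NormedSpace ℝ X]

theorem GCoord.Flat.mono {S : GCoord X} {b b' : ℕ} {η η' : ℝ} {x : X} (h : S.Flat b η x)
    (hb : b' ≤ b) (hη : η ≤ η') : S.Flat b' η' x := by
  rintro F hF ⟨p, hp, hpb⟩
  exact (h F hF ⟨p, hp, hpb.trans hb⟩).trans hη

theorem GCoord.Flat.co_le {S : GCoord X} {b : ℕ} {η : ℝ} {x : X} (h : S.Flat b η x)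
    (hb : S.b0 ≤ b) (p : ℕ) : |S.co p x| ≤ η := by
  obtain ⟨F, hF, hpF, q, hq, hqb⟩ := S.sing_loc p
  refine le_trans ?_ (h F hF ⟨q, hq, hqb.trans hb⟩)
  exact Finset.single_le_sum (f := fun k => |S.co k x|) (fun _ _ => abs_nonneg _)
    (hpF (Finset.mem_singleton_self p))

theorem GCoord.co_le (S : GCoord X) (p : ℕ) (z : X) : |S.co p z| ≤ ‖z‖ := by
  simpa using S.le z {p} (S.sing p)

theorem GCoord.Flat.add {S : GCoord X} {b : ℕ} {η η' : ℝ} {x y : X} (hx : S.Flat b η x)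
    (hy : S.Flat b η' y) : S.Flat b (η + η') (x + y) := by
  intro F hF hp
  calc ∑ k ∈ F, |S.co k (x + y)| ≤ ∑ k ∈ F, (|S.co k x| + |S.co k y|) := by
        refine Finset.sum_le_sum fun k _ => ?_
        rw [map_add]
        exact abs_add_le _ _
    _ ≤ η + η' := by
        rw [Finset.sum_add_distrib]
        exact add_le_add (hx F hF hp) (hy F hF hp)

theorem GCoord.Flat.smul {S : GCoord X} {b : ℕ} {η : ℝ} {x : X} (hx : S.Flat b η x) (r : ℝ) :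
    S.Flat b (|r| * η) (r • x) := by
  intro F hF hp
  calc ∑ k ∈ F, |S.co k (r • x)| = |r| * ∑ k ∈ F, |S.co k x| := by
        rw [Finset.mul_sum]
        refine Finset.sum_congr rfl fun k _ => ?_
        rw [map_smul, smul_eq_mul, abs_mul]
    _ ≤ |r| * η := mul_le_mul_of_nonneg_left (hx F hF hp) (abs_nonneg _)

theorem GCoord.flat_norm (S : GCoord X) (b : ℕ) (x : X) : S.Flat b ‖x‖ x :=
  fun F hF _ => S.le x F hF

end basic

end Pool.Agent.H182R2.CG
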