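import Pool.Agent.H182R2.CG.GStubs
import Pool.Agent.H182R2.CB.R6_center

/-!
# Centers of orbits (task GR6_center)
-/

set_option autoImplicit false

namespace Pool.Agent.H182R2.CG.GR6_center

open Finset Filter Topology Pool.Agent.H182R2.CB

variable {X : Type*} [NormedAddCommGroup X] [NormedSpace ℝ X]

theorem GR6_flat_sum (S : GCoord X) (b : ℕ) (η : ℝ) (d : ℕ → X) (N : ℕ)
    (h : ∀ j, S.Flat b η (d j)) : S.Flat b (N * η) (∑ j ∈ range N, d j) := by
  induction N with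
  | zero =>
    intro F _ _
    simp
  | succ N ih =>
    rw [Finset.sum_range_succ]
    refine (ih.add (h N)).mono le_rfl (le_of_eq ?_)
    push_cast
    ring

theorem GR6_exists (S : GCoord X) (R : BRep X) (x : X) (B s₀ t : Finset ℕ) (ε : ℝ) (hε : 0 < ε)
    (N : ℕ) (hN : 0 < N) (b : ℕ) :
    ∃ (h : Equiv.Perm ℕ) (A : X), IsAvg R x B N ε A ∧ (∀ i ∈ B, h i = i) ∧
      (∀ a ∈ s₀ \ B, h a ∉ t) ∧ S.Flat b (12 * R.K * ε) (R.ρ h x - A) := by
  obtain ⟨s₁, hs₁⟩ := R.cont x ε hε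
  have hBs : B ⊆ s₀ ∪ s₁ ∪ B := Finset.subset_union_right
  have hs : ∀ g : Equiv.Perm ℕ, (∀ i ∈ s₀ ∪ s₁ ∪ B, g i = i) → ‖R.ρ g x - x‖ ≤ ε := by
    intro g hg
    exact hs₁ g (fun i hi => hg i (by simp [hi]))
  obtain ⟨h, hB, hd, ht⟩ := E2_family B (s₀ ∪ s₁ ∪ B) t
  obtain ⟨φ, hφ, hφ2⟩ := GR2_claimA S R x B (s₀ ∪ s₁ ∪ B) hBs ε hε hs h hB hd
  obtain ⟨K₀, hK₀⟩ := hφ2 b
  have hN0 : (0 : ℝ) < N := Nat.cast_pos.mpr hN
  refine ⟨h (φ K₀), (1 / N : ℝ) • ∑ j ∈ range N, R.ρ (h (φ (K₀ + j + 1))) x,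
    ⟨s₀ ∪ s₁ ∪ B, fun j => h (φ (K₀ + j + 1)), hBs, hs, fun j _ => hB _, ?_, rfl⟩, hB _, ?_, ?_⟩
  · intro i _ j _ hij a ha b hb
    exact hd _ _ (fun hc => hij (by have := hφ.injective hc; omega)) a ha b hb
  · intro a ha
    apply ht (φ K₀) a
    simp only [Finset.mem_sdiff, Finset.mem_union] at ha ⊢
    tauto
  · have e : R.ρ (h (φ K₀)) x - (1 / N : ℝ) • ∑ j ∈ range N, R.ρ (h (φ (K₀ + j + 1))) x =
        (1 / N : ℝ) • ∑ j ∈ range N, (R.ρ (h (φ K₀)) x - R.ρ (h (φ (K₀ + j + 1))) x) := by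
      rw [Finset.sum_sub_distrib, smul_sub, Finset.sum_const, Finset.card_range,
        ← Nat.cast_smul_eq_nsmul ℝ, smul_smul, one_div_mul_cancel hN0.ne', one_smul]
    rw [e]
    have h1 := GR6_flat_sum S b (12 * R.K * ε)
      (fun j => R.ρ (h (φ K₀)) x - R.ρ (h (φ (K₀ + j + 1))) x) N
      (fun j => hK₀ _ _ le_rfl (by omega))
    refine (h1.smul (1 / N : ℝ)).mono le_rfl (le_of_eq ?_)
    rw [abs_of_nonneg (by positivity : 0 ≤ (1 / N : ℝ))]
    field_simp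

theorem GR6_center [CompleteSpace X] (S : GCoord X) (R : BRep X) (x : X) (B : Finset ℕ) :
    ∃ y : X, (∀ g : Equiv.Perm ℕ, (∀ i ∈ B, g i = i) → R.ρ g y = y) ∧ ‖y‖ ≤ R.K * ‖x‖ ∧
      ∀ (b : ℕ) (η : ℝ), 0 < η → ∀ s₀ t : Finset ℕ, ∃ h : Equiv.Perm ℕ, (∀ i ∈ B, h i = i) ∧
        (∀ a ∈ s₀ \ B, h a ∉ t) ∧ S.Flat b η (R.ρ h x - y) := by
  have hK := R.hK
  have hK0 : 0 < R.K := by linarith
  set C : ℝ := R.K * (2 * R.K * ‖x‖ + 1) with hC
  have hC0 : 0 < C := by positivity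
  -- the averages
  have hex : ∀ n : ℕ, ∃ A : X, IsAvg R x B (n + 1) (1 / ((n : ℝ) + 1)) A := by
    intro n
    obtain ⟨-, A, hA, -⟩ := GR6_exists S R x B ∅ ∅ (1 / ((n : ℝ) + 1)) (by positivity) (n + 1)
      (Nat.succ_pos n) 0
    exact ⟨A, hA⟩
  choose A hA using hex
  set b : ℕ → ℝ := fun n => (C + 2 * R.K) * (1 / ((n : ℝ) + 1)) with hb
  have hb0 : Tendsto b atTop (𝓝 0) := by
    have := (tendsto_one_div_add_atTop_nhds_zero_nat (𝕜 := ℝ)).const_mul (C + 2 * R.K)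
    rwa [mul_zero] at this
  have hbval : ∀ n : ℕ, C / ((n + 1 : ℕ) : ℝ) + 2 * R.K * (1 / ((n : ℝ) + 1)) = b n := by
    intro n
    rw [hb]
    push_cast
    ring
  have key : ∀ (N' : ℕ) (ε' : ℝ) (A' : X), 0 < N' → 0 < ε' → IsAvg R x B N' ε' A' → ∀ n,
      ‖A n - A'‖ ≤ b n + (C / N' + 2 * R.K * ε') := by
    intro N' ε' A' hN' hε' hA' n
    have := GR5_avg S R x B (n + 1) N' (Nat.succ_pos n) hN' (1 / ((n : ℝ) + 1)) ε' (by positivity)
      hε' (A n) A' (hA n) hA'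
    rw [← hbval n]
    exact this
  have hcau : CauchySeq A := by
    apply cauchySeq_of_le_tendsto_0 (fun n => 2 * b n)
    · intro n m N hn hm
      have h1 := key (m + 1) (1 / ((m : ℝ) + 1)) (A m) (Nat.succ_pos m) (by positivity) (hA m) n
      rw [hbval m] at h1
      have mono : ∀ k : ℕ, N ≤ k → b k ≤ b N := by
        intro k hk
        rw [hb]
        apply mul_le_mul_of_nonneg_left _ (by positivity)
        apply one_div_le_one_div_of_le (by positivity)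
        have : (N : ℝ) ≤ k := Nat.cast_le.mpr hk
        linarith
      rw [dist_eq_norm]
      linarith [mono n hn, mono m hm]
    · have := hb0.const_mul 2
      rwa [mul_zero] at this
  obtain ⟨y, hy⟩ := cauchySeq_tendsto_of_complete hcau
  have key2 : ∀ (N' : ℕ) (ε' : ℝ) (A' : X), 0 < N' → 0 < ε' → IsAvg R x B N' ε' A' →
      ‖y - A'‖ ≤ C / N' + 2 * R.K * ε' := by
    intro N' ε' A' hN' hε' hA'
    have h1 : Tendsto (fun n => ‖A n - A'‖) atTop (𝓝 ‖y - A'‖) :=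
      (hy.sub_const A').norm
    have h2 : Tendsto (fun n => b n + (C / N' + 2 * R.K * ε')) atTop
        (𝓝 (0 + (C / N' + 2 * R.K * ε'))) := hb0.add_const _
    rw [zero_add] at h2
    exact le_of_tendsto_of_tendsto' h1 h2 (key N' ε' A' hN' hε' hA')
  refine ⟨y, ?_, ?_, ?_⟩
  · intro g hg
    have h1 : ∀ n, ‖R.ρ g y - y‖ ≤ (1 + R.K) * b n := by
      intro n
      have e1 := key2 (n + 1) (1 / ((n : ℝ) + 1)) _ (Nat.succ_pos n) (by positivity)
        (R6_act R x B _ _ _ (hA n) g hg)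
      rw [hbval n] at e1
      have e2 := key2 (n + 1) (1 / ((n : ℝ) + 1)) _ (Nat.succ_pos n) (by positivity) (hA n)
      rw [hbval n] at e2
      have e3 := R.bound g (y - A n)
      rw [map_sub] at e3
      have e4 : R.ρ g y - y = (R.ρ g y - R.ρ g (A n)) - (y - R.ρ g (A n)) := by abel
      rw [e4]
      refine (norm_sub_le _ _).trans ?_
      have e5 := mul_le_mul_of_nonneg_left e2 hK0.le
      linarith
    have h2 : Tendsto (fun n => (1 + R.K) * b n) atTop (𝓝 0) := by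
      have := hb0.const_mul (1 + R.K)
      rwa [mul_zero] at this
    have h3 : ‖R.ρ g y - y‖ ≤ 0 := ge_of_tendsto' h2 h1
    exact sub_eq_zero.mp (norm_le_zero_iff.mp h3)
  · exact le_of_tendsto' hy.norm (fun n => R6_norm R x B _ _ (Nat.succ_pos n) _ (hA n))
  · intro lv η hη s₀ t
    obtain ⟨N, hN⟩ := exists_nat_gt (2 * C / η)
    have hN0 : (0 : ℝ) < N := lt_of_le_of_lt (by positivity) hN
    obtain ⟨h, A', hA', hhB, hht, hhp⟩ := GR6_exists S R x B s₀ t (η / (32 * R.K))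
      (by positivity) N (Nat.cast_pos.mp hN0) lv
    refine ⟨h, hhB, hht, ?_⟩
    have e1 := key2 N (η / (32 * R.K)) A' (Nat.cast_pos.mp hN0) (by positivity) hA'
    have e2 : C / N ≤ η / 2 := by
      rw [div_le_iff₀ hN0]
      rw [div_lt_iff₀ hη] at hN
      linarith
    have e3 : R.K * (η / (32 * R.K)) = η / 32 := by field_simp
    have e4 : R.ρ h x - y = (R.ρ h x - A') + (A' - y) := by abel
    rw [e4]
    have e7 : 12 * R.K * (η / (32 * R.K)) = 12 * (η / 32) := by rw [mul_assoc, e3]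
    have e8 : 2 * R.K * (η / (32 * R.K)) = 2 * (η / 32) := by rw [mul_assoc, e3]
    rw [e7] at hhp
    rw [e8] at e1
    have e9 : ‖A' - y‖ ≤ C / N + 2 * (η / 32) := by
      rw [norm_sub_rev]
      exact e1
    exact (hhp.add (S.flat_norm lv (A' - y))).mono le_rfl (by linarith)

end Pool.Agent.H182R2.CG.GR6_center
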