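import Pool.Agent.H182R2.CG.GStubs

/-!
# R7: approximation by vectors of finite support
-/

namespace Pool.Agent.H182R2.CG.GR7_key

open Finset Filter Topology Pool.Agent.H182R2.CB

variable {X : Type*} [NormedAddCommGroup X] [NormedSpace ℝ X]

/-- one step of the recursive construction -/
theorem GR7_key_step [CompleteSpace X] (S : GCoord X) (R : BRep X) (x : ℕ → X) (M : ℝ)
    (hM : ∀ n, ‖x n‖ ≤ M) (δ : ℝ)
    (hbad : ∀ (B : Finset ℕ) (n₀ : ℕ), ∃ n ≥ n₀, ∀ y : X,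
      (∀ g : Equiv.Perm ℕ, (∀ i ∈ B, g i = i) → R.ρ g y = y) → ‖y‖ ≤ R.K ^ 3 * M →
        ∃ p, δ < |S.co p (x n - y)|)
    (g : Equiv.Perm ℕ) (s : Finset ℕ) (b : ℕ) (η : ℝ) (hη : 0 < η) :
    ∃ (v : X) (g' : Equiv.Perm ℕ) (s' : Finset ℕ) (b' : ℕ),
      ‖v‖ ≤ M + R.K ^ 3 * M ∧ (∃ p, δ < |S.co p v|) ∧ (∀ i ∈ s, g' i = g i) ∧ s ⊆ s' ∧
      (∀ γ : Equiv.Perm ℕ, (∀ i ∈ s', γ i = i) → ‖R.ρ γ v - v‖ ≤ η) ∧ b ≤ b' ∧
      (∀ F ∈ S.fam, (∀ i ∈ F, b' < i) → ∑ k ∈ F, |S.co k (R.ρ g' v)| ≤ η) ∧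
      S.Flat b η (R.ρ g' v) := by
  obtain ⟨n, -, hn⟩ := hbad s 0
  have hK0 : 0 ≤ R.K := le_trans zero_le_one R.hK
  obtain ⟨y', hy'fix, hy'norm, hy'⟩ := GR6_center S R (R.ρ g (x n)) (s.image g)
  obtain ⟨h, hh1, -, hh3⟩ := hy' b η hη ∅ ∅
  have hmulρ : ∀ (a c : Equiv.Perm ℕ) (z : X), R.ρ (a * c) z = R.ρ a (R.ρ c z) := by
    intro a c z
    rw [map_mul]; rfl
  have hoρ : ∀ z : X, R.ρ 1 z = z := by
    intro z
    rw [map_one]; rfl
  have hhy : R.ρ h y' = y' := hy'fix h hh1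
  have hyfix : ∀ γ : Equiv.Perm ℕ, (∀ i ∈ s, γ i = i) → R.ρ γ (R.ρ g⁻¹ y') = R.ρ g⁻¹ y' := by
    intro γ hγ
    have h1 : R.ρ (g * γ * g⁻¹) y' = y' := by
      apply hy'fix
      intro i hi
      obtain ⟨a, ha, rfl⟩ := Finset.mem_image.1 hi
      simp [hγ a ha]
    calc R.ρ γ (R.ρ g⁻¹ y') = R.ρ (g⁻¹ * (g * γ * g⁻¹)) y' := by
          rw [← hmulρ]; congr 2; group
      _ = R.ρ g⁻¹ (R.ρ (g * γ * g⁻¹) y') := hmulρ _ _ _
      _ = R.ρ g⁻¹ y' := by rw [h1]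
  have hynorm : ‖R.ρ g⁻¹ y'‖ ≤ R.K ^ 3 * M := by
    calc ‖R.ρ g⁻¹ y'‖ ≤ R.K * ‖y'‖ := R.bound _ _
      _ ≤ R.K * (R.K * ‖R.ρ g (x n)‖) := mul_le_mul_of_nonneg_left hy'norm hK0
      _ ≤ R.K * (R.K * (R.K * ‖x n‖)) :=
          mul_le_mul_of_nonneg_left (mul_le_mul_of_nonneg_left (R.bound _ _) hK0) hK0
      _ ≤ R.K * (R.K * (R.K * M)) :=
          mul_le_mul_of_nonneg_left (mul_le_mul_of_nonneg_left
            (mul_le_mul_of_nonneg_left (hM n) hK0) hK0) hK0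
      _ = R.K ^ 3 * M := by ring
  have hu : R.ρ (h * g) (x n - R.ρ g⁻¹ y') = R.ρ h (R.ρ g (x n)) - y' := by
    rw [map_sub, hmulρ, hmulρ]
    congr 1
    rw [← hmulρ g g⁻¹, mul_inv_cancel, hoρ, hhy]
  obtain ⟨s1, hs1⟩ := R.cont (x n - R.ρ g⁻¹ y') η hη
  obtain ⟨b1, hb1'⟩ := S.tail (R.ρ (h * g) (x n - R.ρ g⁻¹ y')) η hη
  refine ⟨x n - R.ρ g⁻¹ y', h * g, s ∪ s1, max b b1, ?_, hn _ hyfix hynorm, ?_,
    Finset.subset_union_left, ?_, le_max_left _ _, ?_, ?_⟩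
  · exact (norm_sub_le _ _).trans (add_le_add (hM n) hynorm)
  · intro i hi
    rw [Equiv.Perm.mul_apply]
    exact hh1 _ (Finset.mem_image_of_mem _ hi)
  · intro γ hγ
    exact hs1 γ fun i hi => hγ i (Finset.mem_union_right _ hi)
  · intro F hF hFb
    exact hb1' F hF fun i hi => ((le_max_right b b1).trans (hFb i hi).le)
  · rw [hu]
    exact hh3

theorem GR7_key [CompleteSpace X] (S : GCoord X) (R : BRep X) (x : ℕ → X) (M : ℝ)
    (hM : ∀ n, ‖x n‖ ≤ M) (δ : ℝ) (hδ : 0 < δ) :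
    ∃ (B : Finset ℕ) (n₀ : ℕ), ∀ n ≥ n₀, ∃ y : X,
      (∀ g : Equiv.Perm ℕ, (∀ i ∈ B, g i = i) → R.ρ g y = y) ∧ ‖y‖ ≤ R.K ^ 3 * M ∧
        ∀ p, |S.co p (x n - y)| ≤ δ := by
  by_contra hcon
  push Not at hcon
  have hbad : ∀ (B : Finset ℕ) (n₀ : ℕ), ∃ n ≥ n₀, ∀ y : X,
      (∀ g : Equiv.Perm ℕ, (∀ i ∈ B, g i = i) → R.ρ g y = y) → ‖y‖ ≤ R.K ^ 3 * M →
        ∃ p, δ < |S.co p (x n - y)| := by
    intro B n₀
    exact hcon B n₀
  have hK0 : 0 ≤ R.K := le_trans zero_le_one R.hK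
  have hM0 : 0 ≤ M := (norm_nonneg _).trans (hM 0)
  set M1 : ℝ := M + R.K ^ 3 * M with hM1
  have hM10 : 0 ≤ M1 := by positivity
  have hη : ∀ k : ℕ, (0 : ℝ) < 1 / 2 ^ (k + 1) := fun k => by positivity
  choose V G T B hVn hVb hG hT hTs hB hBt hBf using
    fun (g : Equiv.Perm ℕ) (s : Finset ℕ) (b : ℕ) (k : ℕ) =>
      GR7_key_step S R x M hM δ hbad g s b (1 / 2 ^ (k + 1)) (hη k)
  -- the recursive construction
  let st : ℕ → (Equiv.Perm ℕ × Finset ℕ × ℕ) := fun n =>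
    Nat.rec (1, ∅, 0) (fun k t => (G t.1 t.2.1 t.2.2 k, T t.1 t.2.1 t.2.2 k,
      B t.1 t.2.1 t.2.2 k)) n
  have hst : ∀ k, st (k + 1) = (G (st k).1 (st k).2.1 (st k).2.2 k,
      T (st k).1 (st k).2.1 (st k).2.2 k, B (st k).1 (st k).2.1 (st k).2.2 k) := fun k => rfl
  obtain ⟨g, hg⟩ : ∃ g : ℕ → Equiv.Perm ℕ, g = fun k => (st k).1 := ⟨_, rfl⟩
  obtain ⟨s, hs⟩ : ∃ s : ℕ → Finset ℕ, s = fun k => (st k).2.1 := ⟨_, rfl⟩
  obtain ⟨b, hb⟩ : ∃ b : ℕ → ℕ, b = fun k => (st k).2.2 := ⟨_, rfl⟩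
  obtain ⟨v, hv⟩ : ∃ v : ℕ → X, v = fun k => V (g k) (s k) (b k) k := ⟨_, rfl⟩
  have hg1 : ∀ k, g (k + 1) = G (g k) (s k) (b k) k := fun k => by
    rw [hg, hs, hb]
  have hs1 : ∀ k, s (k + 1) = T (g k) (s k) (b k) k := fun k => by
    rw [hg, hs, hb]
  have hb1 : ∀ k, b (k + 1) = B (g k) (s k) (b k) k := fun k => by
    rw [hg, hs, hb]
  have hvn : ∀ k, ‖v k‖ ≤ M1 := fun k => by rw [hv]; exact hVn _ _ _ _
  have hvb : ∀ k, ∃ p, δ < |S.co p (v k)| := fun k => by rw [hv]; exact hVb _ _ _ _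
  have hgs : ∀ k, ∀ i ∈ s k, g (k + 1) i = g k i := fun k => by
    rw [hg1]; exact hG _ _ _ _
  have hss : ∀ k, s k ⊆ s (k + 1) := fun k => by rw [hs1 k]; exact hT _ _ _ _
  have hsv : ∀ k (γ : Equiv.Perm ℕ), (∀ i ∈ s (k + 1), γ i = i) →
      ‖R.ρ γ (v k) - v k‖ ≤ 1 / 2 ^ (k + 1) := fun k => by
    rw [hs1 k, hv]; exact hTs _ _ _ _
  have hbb : ∀ k, b k ≤ b (k + 1) := fun k => by rw [hb1 k]; exact hB _ _ _ _
  have hut : ∀ k, ∀ F ∈ S.fam, (∀ i ∈ F, b (k + 1) < i) →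
      ∑ j ∈ F, |S.co j (R.ρ (g (k + 1)) (v k))| ≤ 1 / 2 ^ (k + 1) := fun k => by
    rw [hb1 k, hg1 k, hv]; exact hBt _ _ _ _
  have huf : ∀ k, S.Flat (b k) (1 / 2 ^ (k + 1)) (R.ρ (g (k + 1)) (v k)) := fun k => by
    rw [hg1 k, hv]; exact hBf _ _ _ _
  clear_value st
  have hmulρ : ∀ (a c : Equiv.Perm ℕ) (z : X), R.ρ (a * c) z = R.ρ a (R.ρ c z) := by
    intro a c z
    rw [map_mul]; rfl
  have hoρ : ∀ z : X, R.ρ 1 z = z := by
    intro z
    rw [map_one]; rfl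
  have hbmono : Monotone b := monotone_nat_of_le_succ hbb
  have hsmono : Monotone s := monotone_nat_of_le_succ hss
  have hgg : ∀ k L, k ≤ L → ∀ i ∈ s k, g L i = g k i := by
    intro k L hkL
    induction L, hkL using Nat.le_induction with
    | base => intro i _; rfl
    | succ L hL ih =>
      intro i hi
      rw [hgs L i (hsmono hL hi), ih i hi]
  -- closeness of `ρ(g_L) v_k` and `u_k`
  have hclose : ∀ k L, k < L → ‖R.ρ (g L) (v k) - R.ρ (g (k + 1)) (v k)‖ ≤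
      R.K * (1 / 2 ^ (k + 1)) := by
    intro k L hkL
    have h1 : ∀ i ∈ s (k + 1), ((g (k + 1))⁻¹ * g L) i = i := by
      intro i hi
      rw [Equiv.Perm.mul_apply, hgg (k + 1) L hkL i hi]
      simp
    have h2 := hsv k _ h1
    have h3 : R.ρ (g L) (v k) - R.ρ (g (k + 1)) (v k) =
        R.ρ (g (k + 1)) (R.ρ ((g (k + 1))⁻¹ * g L) (v k) - v k) := by
      rw [map_sub, ← hmulρ, mul_inv_cancel_left]
    rw [h3]
    exact (R.bound _ _).trans (mul_le_mul_of_nonneg_left h2 hK0)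
  have hgeo : ∀ m : ℕ, ∑ j ∈ range m, (1 : ℝ) / 2 ^ (j + 1) ≤ 1 := by
    intro m
    have h1 : ∑ j ∈ range m, (1 : ℝ) / 2 ^ (j + 1) = 1 - 1 / 2 ^ m := by
      induction m with
      | zero => simp
      | succ m ih => rw [Finset.sum_range_succ, ih, pow_succ]; field_simp; ring
    rw [h1]
    have : (0 : ℝ) < 1 / 2 ^ m := by positivity
    linarith
  set C1 : ℝ := R.K * (R.K * M1 + 1 + R.K) with hC1
  have hC10 : 0 ≤ C1 := by positivity
  have hsum : ∀ (m : ℕ) (θ : ℕ → ℝ), (∀ j, |θ j| ≤ 1) →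
      ‖∑ j ∈ range m, θ j • v j‖ ≤ C1 := by
    intro m θ hθ
    have hup := G1_upper S m (fun j => θ j • R.ρ (g (j + 1)) (v j)) (fun j => b (j + 1))
      (R.K * M1) (fun j => 1 / 2 ^ (j + 1)) (by positivity) (fun j => (hη j).le) (hgeo m)
      (by
        intro j _
        rw [norm_smul, Real.norm_eq_abs]
        calc |θ j| * ‖R.ρ (g (j + 1)) (v j)‖ ≤ 1 * (R.K * M1) :=
              mul_le_mul (hθ j) ((R.bound _ _).trans (mul_le_mul_of_nonneg_left (hvn j) hK0))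
                (norm_nonneg _) zero_le_one
          _ = _ := one_mul _)
      (by
        intro j _ F hF hFb
        refine le_trans (Finset.sum_le_sum fun k _ => ?_) (hut j F hF hFb)
        rw [map_smul, smul_eq_mul, abs_mul]
        calc |θ j| * |S.co k (R.ρ (g (j + 1)) (v j))| ≤ 1 * |S.co k (R.ρ (g (j + 1)) (v j))| :=
              mul_le_mul_of_nonneg_right (hθ j) (abs_nonneg _)
          _ = _ := one_mul _)
      (by
        intro i j hij _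
        refine ((huf j).smul (θ j)).mono (hbmono hij) ?_
        calc |θ j| * (1 / 2 ^ (j + 1)) ≤ 1 * (1 / 2 ^ (j + 1)) :=
              mul_le_mul_of_nonneg_right (hθ j) (hη j).le
          _ = _ := one_mul _)
    have h2 : ‖R.ρ (g m) (∑ j ∈ range m, θ j • v j)‖ ≤ R.K * M1 + 1 + R.K := by
      have h3 : R.ρ (g m) (∑ j ∈ range m, θ j • v j) =
          ∑ j ∈ range m, θ j • R.ρ (g (j + 1)) (v j) +
          ∑ j ∈ range m, θ j • (R.ρ (g m) (v j) - R.ρ (g (j + 1)) (v j)) := by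
        rw [map_sum, ← Finset.sum_add_distrib]
        refine Finset.sum_congr rfl fun j _ => ?_
        rw [map_smul, ← smul_add]
        congr 1
        abel
      rw [h3]
      refine (norm_add_le _ _).trans (add_le_add hup ?_)
      refine (norm_sum_le _ _).trans ?_
      calc ∑ j ∈ range m, ‖θ j • (R.ρ (g m) (v j) - R.ρ (g (j + 1)) (v j))‖
          ≤ ∑ j ∈ range m, R.K * (1 / 2 ^ (j + 1)) := by
            refine Finset.sum_le_sum fun j hj => ?_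
            rw [norm_smul, Real.norm_eq_abs]
            calc |θ j| * ‖R.ρ (g m) (v j) - R.ρ (g (j + 1)) (v j)‖
                ≤ 1 * (R.K * (1 / 2 ^ (j + 1))) :=
                  mul_le_mul (hθ j) (hclose j m (Finset.mem_range.1 hj)) (norm_nonneg _)
                    zero_le_one
              _ = _ := one_mul _
        _ = R.K * ∑ j ∈ range m, 1 / 2 ^ (j + 1) := by rw [Finset.mul_sum]
        _ ≤ R.K * 1 := mul_le_mul_of_nonneg_left (hgeo m) hK0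
        _ = R.K := mul_one _
    have h4 : ∑ j ∈ range m, θ j • v j =
        R.ρ (g m)⁻¹ (R.ρ (g m) (∑ j ∈ range m, θ j • v j)) := by
      rw [← hmulρ, inv_mul_cancel, hoρ]
    rw [h4]
    exact (R.bound _ _).trans (mul_le_mul_of_nonneg_left h2 hK0)
  -- coordinatewise null
  have hcop : ∀ (p : ℕ) (z : X), |S.co p z| ≤ ‖z‖ := fun p z => S.co_le p z
  have hnull : ∀ p, Tendsto (fun k => S.co p (v k)) atTop (𝓝 0) := by
    intro p
    have h1 : Summable fun k => |S.co p (v k)| := by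
      refine summable_of_sum_range_le (c := C1) (fun k => abs_nonneg _) fun m => ?_
      have h2 := hsum m (fun j => SignType.sign (S.co p (v j))) (fun j => by
        rcases lt_trichotomy (S.co p (v j)) 0 with h | h | h
        · simp [h]
        · simp [h]
        · simp [h])
      have h3 := (hcop p _).trans h2
      have h4 : S.co p (∑ j ∈ range m, ((SignType.sign (S.co p (v j)) : SignType) : ℝ) • v j) =
          ∑ j ∈ range m, |S.co p (v j)| := by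
        rw [map_sum]
        refine Finset.sum_congr rfl fun j _ => ?_
        rw [map_smul, smul_eq_mul]
        exact sign_mul_self _
      rw [h4] at h3
      exact (le_abs_self _).trans h3
    have h5 := h1.tendsto_atTop_zero
    exact (tendsto_zero_iff_abs_tendsto_zero _).2 h5
  obtain ⟨m, hm⟩ := exists_nat_gt (2 * C1 / δ)
  obtain ⟨κ, hκmono, -, hκ⟩ := G3c_spread S v hnull δ hδ
    (fun K => ⟨K, le_rfl, (hvb K).imp fun p hp => hp.le⟩) m 0
  have h1 := hκ (fun _ => 1)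
  have h2 : ∑ j ∈ range m, (1 : ℝ) • v (κ j) =
      ∑ k ∈ range (κ m), (if k ∈ (range m).image κ then (1 : ℝ) else 0) • v k := by
    have h3 : ∑ k ∈ range (κ m), (if k ∈ (range m).image κ then (1 : ℝ) else 0) • v k =
        ∑ k ∈ (range m).image κ, (1 : ℝ) • v k := by
      have h4 : (range m).image κ ⊆ range (κ m) := by
        intro k hk
        obtain ⟨j, hj, rfl⟩ := Finset.mem_image.1 hk
        exact Finset.mem_range.2 (hκmono (Finset.mem_range.1 hj))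
      rw [← Finset.sum_subset h4]
      · refine Finset.sum_congr rfl fun k hk => ?_
        rw [if_pos hk]
      · intro k _ hk
        rw [if_neg hk, zero_smul]
    rw [h3, Finset.sum_image]
    intro a _ c _ hac
    exact hκmono.injective hac
  have h3 := hsum (κ m) (fun k => if k ∈ (range m).image κ then (1 : ℝ) else 0) (fun k => by
    show |(if k ∈ (range m).image κ then (1 : ℝ) else 0)| ≤ 1
    split_ifs <;> simp)
  rw [← h2] at h3
  have h4 : δ / 2 * ∑ j ∈ range m, |(1 : ℝ)| = δ / 2 * m := by simp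
  rw [h4] at h1
  have h5 : δ / 2 * m ≤ C1 := h1.trans h3
  rw [div_lt_iff₀ hδ] at hm
  linarith

end Pool.Agent.H182R2.CG.GR7_key
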