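import Pool.Agent.H182R2.CG.GStubs

/-!
# Task GR9_lower (helper597): lower bound for sums of translates
-/

set_option autoImplicit false

namespace Pool.Agent.H182R2.CG.GR9_lower

open Finset Filter Topology Pool.Agent.H182R2.CB Pool.Agent.H182R2.CG

variable {X : Type*} [NormedAddCommGroup X] [NormedSpace ℝ X]

theorem GR9_loc_fam (S : GCoord X) {b : ℕ} {G : Finset ℕ} (hG : G ∈ loc S.fam b) :
    G ∈ S.fam := by
  obtain ⟨F, hF, hGF, -⟩ := hG
  exact S.her F hF G hGF

theorem GR9_loc_sub (S : GCoord X) {b : ℕ} {G G' : Finset ℕ} (hG : G ∈ loc S.fam b)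
    (h : G' ⊆ G) : G' ∈ loc S.fam b := by
  obtain ⟨F, hF, hGF, hp⟩ := hG
  exact ⟨F, hF, h.trans hGF, hp⟩

theorem GR9_rec (S : GCoord X) (m : ℕ) (T : ℕ → ℕ → X) (bb : ℕ) (c : ℝ) (hc : 0 < c)
    (hnull : ∀ l p, Tendsto (fun j => S.co p (T l j)) atTop (𝓝 0))
    (hcap : ∀ l < m, ∀ J, ∃ j ≥ J, ∃ G ∈ loc S.fam bb, c ≤ ∑ k ∈ G, |S.co k (T l j)|)
    (e : ℝ) (he : 0 < e) (P : ℕ) :
    ∀ l, l ≤ m → ∃ (j : ℕ → ℕ) (G : ℕ → Finset ℕ),
      (∀ i < l, G i ∈ loc S.fam bb ∧ (∀ p ∈ G i, P ≤ p) ∧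
        3 * c / 4 ≤ ∑ k ∈ G i, |S.co k (T i (j i))|) ∧
      (∀ i < l, ∀ i' < l, i < i' → ∀ a ∈ G i, ∀ d ∈ G i', a < d) ∧
      (∀ i < l, ∀ i' < l, i ≠ i' → ∑ k ∈ G i', |S.co k (T i (j i))| ≤ e) := by
  intro l
  induction l with
  | zero => exact fun _ => ⟨fun _ => 0, fun _ => ∅, by simp, by simp, by simp⟩
  | succ l ih =>
    intro hl
    obtain ⟨j, G, h1, h3, h2⟩ := ih (by omega)
    -- tail indices
    have htail : ∀ i, ∃ n : ℕ, ∀ F ∈ S.fam, (∀ p ∈ F, n ≤ p) →
        ∑ k ∈ F, |S.co k (T i (j i))| ≤ e := fun i => S.tail _ _ he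
    choose n hn using htail
    obtain ⟨Q, hQP, hQG, hQn⟩ : ∃ Q : ℕ, P ≤ Q ∧ (∀ i < l, ∀ p ∈ G i, p < Q) ∧
        ∀ i < l, n i ≤ Q := by
      refine ⟨P + (∑ i ∈ range l, (∑ p ∈ G i, (p + 1))) + ∑ i ∈ range l, n i, by omega, ?_, ?_⟩
      · intro i hi p hp
        have a1 : p + 1 ≤ ∑ p ∈ G i, (p + 1) :=
          Finset.single_le_sum (f := fun p => p + 1) (fun _ _ => Nat.zero_le _) hp
        have a2 : ∑ p ∈ G i, (p + 1) ≤ ∑ i ∈ range l, (∑ p ∈ G i, (p + 1)) :=
          Finset.single_le_sum (f := fun i => ∑ p ∈ G i, (p + 1)) (fun _ _ => Nat.zero_le _)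
            (Finset.mem_range.mpr hi)
        omega
      · intro i hi
        have a2 : n i ≤ ∑ i ∈ range l, n i :=
          Finset.single_le_sum (f := n) (fun _ _ => Nat.zero_le _) (Finset.mem_range.mpr hi)
        omega
    have hlim : Tendsto (fun k => ∑ p ∈ range Q, |S.co p (T l k)|) atTop (𝓝 0) := by
      have := tendsto_finsetSum (range Q) (fun p _ => (hnull l p).abs)
      simpa using this
    have hev := hlim.eventually (gt_mem_nhds (lt_min (by positivity : 0 < c / 4) he))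
    obtain ⟨J, hJ⟩ := eventually_atTop.mp hev
    obtain ⟨j', hj', G', hG', hGc⟩ := hcap l (by omega) J
    have hsm := hJ j' hj'
    have hsm1 : ∑ p ∈ range Q, |S.co p (T l j')| < c / 4 := hsm.trans_le (min_le_left _ _)
    have hsm2 : ∑ p ∈ range Q, |S.co p (T l j')| < e := hsm.trans_le (min_le_right _ _)
    have hloc : G'.filter (fun p => Q ≤ p) ∈ loc S.fam bb :=
      GR9_loc_sub S hG' (Finset.filter_subset _ _)
    have hmemQ : ∀ p ∈ G'.filter (fun p => Q ≤ p), Q ≤ p := fun p hp => (mem_filter.mp hp).2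
    have hsch : G'.filter (fun p => Q ≤ p) ∈ S.fam := GR9_loc_fam S hloc
    refine ⟨fun i => if i = l then j' else j i,
      fun i => if i = l then G'.filter (fun p => Q ≤ p) else G i, ?_, ?_, ?_⟩
    · intro i hi
      rcases Nat.lt_succ_iff_lt_or_eq.mp hi with hi | hi
      · have : i ≠ l := hi.ne
        simp only [this, if_false]
        exact h1 i hi
      · subst hi
        simp only [if_true]
        refine ⟨hloc, fun p hp => hQP.trans (hmemQ p hp), ?_⟩
        have a1 := Finset.sum_filter_add_sum_filter_not G' (fun p => Q ≤ p)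
          (fun k => |S.co k (T i j')|)
        have a2 : ∑ k ∈ G'.filter (fun p => ¬ Q ≤ p), |S.co k (T i j')| ≤
            ∑ p ∈ range Q, |S.co p (T i j')| := by
          refine Finset.sum_le_sum_of_subset_of_nonneg ?_ fun _ _ _ => abs_nonneg _
          intro p hp
          rw [mem_range]
          have := (mem_filter.mp hp).2
          omega
        linarith
    · intro i hi i' hi' hlt
      have b1 : i ≠ l := by omega
      rcases Nat.lt_succ_iff_lt_or_eq.mp hi' with hi' | hi'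
      · have b2 : i' ≠ l := hi'.ne
        simp only [b1, b2, if_false]
        exact h3 i (by omega) i' hi' hlt
      · subst hi'
        simp only [b1, if_false, if_true]
        intro a ha d hd
        exact (hQG i hlt a ha).trans_le (hmemQ d hd)
    · intro i hi i' hi' hne
      rcases Nat.lt_succ_iff_lt_or_eq.mp hi with hi | hi <;>
        rcases Nat.lt_succ_iff_lt_or_eq.mp hi' with hi' | hi'
      · have b1 : i ≠ l := hi.ne
        have b2 : i' ≠ l := hi'.ne
        simp only [b1, b2, if_false]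
        exact h2 i hi i' hi' hne
      · subst hi'
        have b1 : i ≠ i' := hi.ne
        simp only [b1, if_false, if_true]
        exact hn i _ hsch fun p hp => (hQn i hi).trans (hmemQ p hp)
      · subst hi
        have b1 : i' ≠ i := hi'.ne
        simp only [b1, if_false, if_true]
        refine le_trans (Finset.sum_le_sum_of_subset_of_nonneg ?_ fun _ _ _ => abs_nonneg _)
          hsm2.le
        intro p hp
        rw [mem_range]
        exact hQG i' hi' p hp
      · exact absurd (hi.trans hi'.symm) hne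

theorem GR9_lower (S : GCoord X) (R : BRep X) (D : ℕ → X) (M : ℝ) (hM : ∀ j, ‖D j‖ ≤ M)
    (hnull : ∀ p, Tendsto (fun k => S.co p (D k)) atTop (𝓝 0))
    (hbig : ∀ j, ∃ p, 1 / 2 ≤ |S.co p (D j)|) (m : ℕ) (g : ℕ → Equiv.Perm ℕ) :
    ∃ j : ℕ → ℕ, m * (1 / (16 * R.K)) ≤ ‖∑ l ∈ range m, R.ρ (g l) (D (j l))‖ := by
  have hK : 0 < R.K := lt_of_lt_of_le zero_lt_one R.hK
  rcases Nat.eq_zero_or_pos m with hm | hm
  · subst hm
    exact ⟨fun _ => 0, by simp⟩
  have hmR : (0:ℝ) < m := Nat.cast_pos.mpr hm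
  have hcap : ∀ l, ∃ b : ℕ, ∀ J, ∃ j ≥ J, ¬ S.Flat b (1 / (8 * R.K)) (R.ρ (g l) (D j)) :=
    fun l => GR8_capture S R (g l) D M hM hnull hbig
  choose b hb using hcap
  set bb : ℕ := ∑ l ∈ range m, b l with hbb
  have hN : ∀ l < m, ∀ J, ∃ j ≥ J, ∃ G ∈ loc S.fam bb,
      1 / (8 * R.K) ≤ ∑ k ∈ G, |S.co k (R.ρ (g l) (D j))| := by
    intro l hl J
    obtain ⟨j, hj, hflat⟩ := hb l J
    unfold GCoord.Flat at hflat
    push Not at hflat
    obtain ⟨F, hF, ⟨p, hp, hpb⟩, hlt⟩ := hflat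
    have hle : b l ≤ bb := Finset.single_le_sum (f := b) (fun _ _ => Nat.zero_le _)
      (Finset.mem_range.mpr hl)
    exact ⟨j, hj, F, ⟨F, hF, Finset.Subset.refl _, p, hp, hpb.trans hle⟩, hlt.le⟩
  have hweak : ∀ l p, Tendsto (fun j => S.co p (R.ρ (g l) (D j))) atTop (𝓝 0) := by
    intro l p
    have h := G8_weak S D M hM hnull
      ((S.co p).comp ((R.ρ (g l)).toLinearMap.mkContinuous R.K (fun x => R.bound (g l) x)))
    exact h
  have hc : (0:ℝ) < 1 / (8 * R.K) := by positivity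
  obtain ⟨P, hP⟩ := S.mult bb m
  obtain ⟨j, G, h1, h3, h2⟩ := GR9_rec S m (fun l j => R.ρ (g l) (D j)) bb (1 / (8 * R.K)) hc
    hweak hN (1 / (8 * R.K) / (8 * m)) (by positivity) P m le_rfl
  refine ⟨j, ?_⟩
  have hdisj : Set.PairwiseDisjoint (↑(range m)) G := by
    intro i hi i' hi' hne
    have him := mem_range.mp (mem_coe.mp hi)
    have him' := mem_range.mp (mem_coe.mp hi')
    show Disjoint (G i) (G i')
    rw [Finset.disjoint_left]
    intro p hp hp'
    rcases lt_or_gt_of_ne hne with h | h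
    · exact absurd (h3 i him i' him' h p hp p hp') (lt_irrefl _)
    · exact absurd (h3 i' him' i him h p hp' p hp) (lt_irrefl _)
  have hF : (range m).biUnion G ∈ S.fam :=
    hP G (fun i hi => ⟨(h1 i hi).1, (h1 i hi).2.1⟩)
      (fun i i' hii hi' a ha d hd => h3 i (hii.trans hi') i' hi' hii a ha d hd)
  refine le_trans ?_ (S.le _ _ hF)
  rw [Finset.sum_biUnion hdisj]
  have hterm : ∀ i ∈ range m, 1 / (8 * R.K) / 2 ≤
      ∑ k ∈ G i, |S.co k (∑ l ∈ range m, R.ρ (g l) (D (j l)))| := by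
    intro i hi
    have him := mem_range.mp hi
    have hsplit : ∀ k ∈ G i, |S.co k (R.ρ (g i) (D (j i)))| -
        ∑ l ∈ (range m).erase i, |S.co k (R.ρ (g l) (D (j l)))| ≤
        |S.co k (∑ l ∈ range m, R.ρ (g l) (D (j l)))| := by
      intro k _
      rw [← Finset.add_sum_erase _ _ hi, map_add]
      have b1 : |S.co k (∑ l ∈ (range m).erase i, R.ρ (g l) (D (j l)))| ≤
          ∑ l ∈ (range m).erase i, |S.co k (R.ρ (g l) (D (j l)))| := by
        rw [map_sum]
        exact Finset.abs_sum_le_sum_abs _ _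
      have b2 := abs_sub_abs_le_abs_sub (S.co k (R.ρ (g i) (D (j i))))
        (-(S.co k (∑ l ∈ (range m).erase i, R.ρ (g l) (D (j l)))))
      rw [abs_neg, sub_neg_eq_add] at b2
      linarith
    have hsum := Finset.sum_le_sum hsplit
    rw [Finset.sum_sub_distrib, Finset.sum_comm] at hsum
    have hmain := (h1 i him).2.2
    have hoff : ∑ l ∈ (range m).erase i, ∑ k ∈ G i, |S.co k (R.ρ (g l) (D (j l)))| ≤
        1 / (8 * R.K) / 8 := by
      calc ∑ l ∈ (range m).erase i, ∑ k ∈ G i, |S.co k (R.ρ (g l) (D (j l)))|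
          ≤ ∑ l ∈ (range m).erase i, 1 / (8 * R.K) / (8 * m) := by
            refine Finset.sum_le_sum fun l hl => ?_
            have hl' := Finset.mem_erase.mp hl
            exact h2 l (mem_range.mp hl'.2) i him hl'.1
        _ ≤ ∑ l ∈ range m, 1 / (8 * R.K) / (8 * m) :=
            Finset.sum_le_sum_of_subset_of_nonneg (Finset.erase_subset _ _)
              fun _ _ _ => by positivity
        _ = 1 / (8 * R.K) / 8 := by
            rw [Finset.sum_const, card_range, nsmul_eq_mul]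
            field_simp
    have hmain' : 3 * (1 / (8 * R.K)) / 4 ≤ ∑ k ∈ G i, |S.co k (R.ρ (g i) (D (j i)))| := hmain
    generalize 1 / (8 * R.K) = c at *
    linarith
  calc (m:ℝ) * (1 / (16 * R.K)) = ∑ i ∈ range m, 1 / (8 * R.K) / 2 := by
        rw [Finset.sum_const, card_range, nsmul_eq_mul]
        field_simp
        norm_num
    _ ≤ _ := Finset.sum_le_sum hterm

end Pool.Agent.H182R2.CG.GR9_lower
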