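import Pool.Agent.H182R2.CB.C1

/-!
Renorming: combinatorial spaces of comparable families.
-/

set_option autoImplicit false

namespace Pool.Agent.H182R2.CG

open Finset Pool.Agent.H182R2.CB

universe u

/-- type synonym without norm -/
def GREN_Y (X : Type u) : Type u := X

instance GREN_i1 (X : Type u) [AddCommGroup X] : AddCommGroup (GREN_Y X) :=
  inferInstanceAs (AddCommGroup X)

instance GREN_i2 (X : Type u) [AddCommGroup X] [Module ℝ X] : Module ℝ (GREN_Y X) :=
  inferInstanceAs (Module ℝ X)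

theorem GREN_aux {X : Type u} [NormedAddCommGroup X] [NormedSpace ℝ X] [CompleteSpace X]
    (N : X → ℝ) (C : ℝ) (h0 : ∀ x, 0 ≤ N x) (hadd : ∀ x y, N (x + y) ≤ N x + N y)
    (hsmul : ∀ (c : ℝ) x, N (c • x) = |c| * N x) (hle : ∀ x, N x ≤ ‖x‖)
    (hge : ∀ x, ‖x‖ ≤ C * N x) :
    ∃ (Y : Type u) (_ : NormedAddCommGroup Y) (_ : NormedSpace ℝ Y) (_ : CompleteSpace Y)
      (T : X ≃L[ℝ] Y), ∀ x, ‖T x‖ = N x := by
  letI : Norm (GREN_Y X) := ⟨fun x => N x⟩
  have core : NormedSpace.Core ℝ (GREN_Y X) :=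
    { norm_nonneg := fun x => h0 x
      norm_smul := fun c x => hsmul c x
      norm_triangle := fun x y => hadd x y
      norm_eq_zero_iff := fun x => by
        constructor
        · intro h
          have h1 : N x = 0 := h
          have h2 := hge x
          rw [h1, mul_zero] at h2
          exact norm_le_zero_iff.1 h2
        · intro h
          subst h
          have h2 := hsmul 0 (0 : X)
          rw [zero_smul, abs_zero, zero_mul] at h2
          exact h2 }
  letI i1 : NormedAddCommGroup (GREN_Y X) := NormedAddCommGroup.ofCore core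
  letI i2 : NormedSpace ℝ (GREN_Y X) := NormedSpace.ofCore core
  let L : X ≃ₗ[ℝ] GREN_Y X := LinearEquiv.refl ℝ X
  let T : X ≃L[ℝ] GREN_Y X := L.toContinuousLinearEquivOfBounds 1 C
    (fun x => by
      rw [one_mul]
      exact hle x)
    (fun x => hge x)
  have hc : CompleteSpace (GREN_Y X) :=
    (completeSpace_congr (e := T.toEquiv) T.isUniformEmbedding).1 inferInstance
  exact ⟨GREN_Y X, i1, i2, hc, T, fun x => rfl⟩

theorem GREN_bi (f : ℕ → ℝ) (hf : ∀ k, 0 ≤ f k) (G : ℕ → Finset ℕ) (n : ℕ) :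
    ∑ k ∈ (range n).biUnion G, f k ≤ ∑ i ∈ range n, ∑ k ∈ G i, f k := by
  induction n with
  | zero => simp
  | succ n ih =>
    rw [Finset.range_add_one, Finset.biUnion_insert, Finset.sum_insert (by simp)]
    have h1 := Finset.sum_union_inter (f := f) (s₁ := G n) (s₂ := (range n).biUnion G)
    have h2 : 0 ≤ ∑ k ∈ G n ∩ (range n).biUnion G, f k :=
      Finset.sum_nonneg fun k _ => hf k
    linarith

/-- Renorming: if `𝓔 ⊆ 𝓕` and every member of `𝓕` is a union of `n` members of `𝓔`, then the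
combinatorial space of `𝓕` is isomorphic to one of `𝓔`. -/
theorem GREN {𝓔 𝓕 : Set (Finset ℕ)} (hE : IsRegularFamily 𝓔) (hEs : ∀ n, ({n} : Finset ℕ) ∈ 𝓔)
    (hF : IsRegularFamily 𝓕) (hEF : 𝓔 ⊆ 𝓕) (n : ℕ)
    (hn : ∀ F ∈ 𝓕, ∃ G : ℕ → Finset ℕ, (∀ i < n, G i ∈ 𝓔) ∧ F = (range n).biUnion G)
    {X : Type u} [NormedAddCommGroup X] [NormedSpace ℝ X] [CompleteSpace X] {e : ℕ → X}
    (hX : IsCombinatorialSpace 𝓕 X e) :
    ∃ (Y : Type u) (_ : NormedAddCommGroup Y) (_ : NormedSpace ℝ Y) (_ : CompleteSpace Y)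
      (e' : ℕ → Y), IsCombinatorialSpace 𝓔 Y e' ∧ Nonempty (X ≃L[ℝ] Y) := by
  obtain ⟨coord, hc1, hc2, hc3, -⟩ := C1_coord hF (fun k => hEF (hEs k)) hX
  haveI : Nonempty 𝓔 := ⟨⟨{0}, hEs 0⟩⟩
  have hbdd : ∀ x : X, BddAbove (Set.range fun F : 𝓔 => ∑ k ∈ (F : Finset ℕ), |coord k x|) := by
    intro x
    refine ⟨‖x‖, ?_⟩
    rintro _ ⟨F, rfl⟩
    exact hc2 x F (hEF F.2)
  have hmem : ∀ (x : X), ∀ F ∈ 𝓔, ∑ k ∈ F, |coord k x| ≤
      ⨆ F : 𝓔, ∑ k ∈ (F : Finset ℕ), |coord k x| := fun x F hF' =>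
    le_ciSup (hbdd x) (⟨F, hF'⟩ : 𝓔)
  have h0 : ∀ x : X, 0 ≤ ⨆ F : 𝓔, ∑ k ∈ (F : Finset ℕ), |coord k x| := fun x =>
    Real.iSup_nonneg fun F => Finset.sum_nonneg fun k _ => abs_nonneg _
  obtain ⟨Y, i1, i2, i3, T, hT⟩ := GREN_aux
    (fun x : X => ⨆ F : 𝓔, ∑ k ∈ (F : Finset ℕ), |coord k x|) (n : ℝ) h0 (by
      intro x y
      refine ciSup_le fun F => ?_
      have h1 : ∑ k ∈ (F : Finset ℕ), |coord k (x + y)| ≤
          ∑ k ∈ (F : Finset ℕ), |coord k x| + ∑ k ∈ (F : Finset ℕ), |coord k y| := by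
        rw [← Finset.sum_add_distrib]
        refine Finset.sum_le_sum fun k _ => ?_
        rw [map_add]
        exact abs_add_le _ _
      exact h1.trans (add_le_add (hmem x F F.2) (hmem y F F.2))) (by
      intro c x
      rw [Real.mul_iSup_of_nonneg (abs_nonneg c)]
      congr 1
      funext F
      rw [Finset.mul_sum]
      refine Finset.sum_congr rfl fun k _ => ?_
      rw [map_smul, smul_eq_mul, abs_mul]) (by
      intro x
      exact ciSup_le fun F => hc2 x F (hEF F.2)) (by
      intro x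
      refine le_of_forall_pos_le_add fun ε hε => ?_
      obtain ⟨F, hF', h1⟩ := hc3 x ε hε
      obtain ⟨G, hG, hFG⟩ := hn F hF'
      refine h1.trans (add_le_add ?_ le_rfl)
      rw [hFG]
      have h2 : ∑ k ∈ (range n).biUnion G, |coord k x| ≤
          ∑ i ∈ range n, ∑ k ∈ G i, |coord k x| :=
        GREN_bi (fun k => |coord k x|) (fun k => abs_nonneg _) G n
      refine h2.trans ?_
      refine (Finset.sum_le_card_nsmul (range n) _ _
        (fun i hi => hmem x (G i) (hG i (Finset.mem_range.1 hi)))).trans ?_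
      rw [Finset.card_range, nsmul_eq_mul])
  refine ⟨Y, i1, i2, i3, fun k => T (e k), ⟨?_, ?_⟩, ⟨T⟩⟩
  · intro a
    have h1 : Finsupp.linearCombination ℝ (fun k => T (e k)) a =
        T (Finsupp.linearCombination ℝ e a) := by
      rw [Finsupp.linearCombination_apply, Finsupp.linearCombination_apply, Finsupp.sum,
        Finsupp.sum, map_sum]
      refine Finset.sum_congr rfl fun k _ => ?_
      rw [map_smul]
    have h2 : ∀ k, coord k (Finsupp.linearCombination ℝ e a) = a k := by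
      intro k
      rw [Finsupp.linearCombination_apply, Finsupp.sum, map_sum]
      simp only [map_smul, hc1, smul_eq_mul, mul_ite, mul_one, mul_zero]
      rw [Finset.sum_ite_eq]
      split_ifs with hk
      · rfl
      · exact (Finsupp.notMem_support_iff.1 hk).symm
    rw [h1, hT]
    simp only [h2]
  · have h1 : (Submodule.span ℝ (Set.range fun k => T (e k)) : Set Y) =
        T '' (Submodule.span ℝ (Set.range e) : Set X) := by
      have h2 : (Set.range fun k => T (e k)) = T '' Set.range e := by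
        rw [← Set.range_comp]
        rfl
      rw [h2]
      have h3 := Submodule.map_span (T : X →ₗ[ℝ] Y) (Set.range e)
      have h4 := congrArg (fun S : Submodule ℝ Y => (S : Set Y)) h3
      simpa using h4.symm
    rw [h1]
    exact T.surjective.denseRange.dense_image T.continuous hX.dense

end Pool.Agent.H182R2.CG
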