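import Pool.Agent.H182R2.CG.GDefs
import Pool.Agent.H182R2.CB.C1

/-!
GS2: coordinates on the combinatorial space of a multiplicative regular family.
-/

namespace Pool.Agent.H182R2.CG

open Finset Filter Topology Pool.Agent.H182R2.CB

theorem GS2_wf {𝓕 : Set (Finset ℕ)} (h : IsRegularFamily 𝓕) (f : ℕ → ℕ) (hf : StrictMono f) :
    ∃ n, (Finset.range n).image f ∉ 𝓕 := by
  classical
  by_contra hcon
  push Not at hcon
  have hcl := h.compact.isClosed
  have hlim : Tendsto (fun n : ℕ => fun i : ℕ => decide (i ∈ (Finset.range n).image f)) atTop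
      (𝓝 (fun i : ℕ => decide (i ∈ Set.range f))) := by
    rw [tendsto_pi_nhds]
    intro i
    by_cases hi : i ∈ Set.range f
    · obtain ⟨k, rfl⟩ := hi
      refine tendsto_const_nhds.congr' ?_
      filter_upwards [eventually_gt_atTop k] with n hn
      have h1 : f k ∈ (Finset.range n).image f :=
        Finset.mem_image_of_mem f (Finset.mem_range.mpr hn)
      rw [decide_eq_true h1, decide_eq_true (Set.mem_range_self k)]
    · refine tendsto_const_nhds.congr' ?_
      filter_upwards with n
      have h1 : i ∉ (Finset.range n).image f := by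
        intro h2
        obtain ⟨k, -, rfl⟩ := Finset.mem_image.mp h2
        exact hi (Set.mem_range_self k)
      rw [decide_eq_false h1, decide_eq_false hi]
  have hmem := hcl.mem_of_tendsto hlim (Eventually.of_forall fun n =>
    ⟨(Finset.range n).image f, hcon n, fun i => by simp only [decide_eq_true_eq]⟩)
  obtain ⟨F, -, hF⟩ := hmem
  have h3 : Set.range f ⊆ (F : Set ℕ) := by
    intro i hi
    exact Finset.mem_coe.mpr ((hF i).mp (decide_eq_true hi))
  exact (Set.infinite_range_of_injective hf.injective) (F.finite_toSet.subset h3)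

theorem GS2_pair {𝓕 : Set (Finset ℕ)} (h : IsRegularFamily 𝓕) {F : Finset ℕ} (hF : F ∈ 𝓕)
    (hc : 2 ≤ F.card) : ∃ i j : ℕ, i < j ∧ ({i, j} : Finset ℕ) ∈ 𝓕 := by
  obtain ⟨a, ha, b, hb, hab⟩ := Finset.one_lt_card.mp hc
  rcases lt_or_gt_of_ne hab with h1 | h1
  · refine ⟨a, b, h1, h.hereditary F hF _ ?_⟩
    intro x hx
    rw [Finset.mem_insert, Finset.mem_singleton] at hx
    rcases hx with rfl | rfl <;> assumption
  · refine ⟨b, a, h1, h.hereditary F hF _ ?_⟩
    intro x hx
    rw [Finset.mem_insert, Finset.mem_singleton] at hx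
    rcases hx with rfl | rfl <;> assumption

theorem GS2_loc {𝓕 : Set (Finset ℕ)} (h : IsRegularFamily 𝓕) (hs : ∀ n, ({n} : Finset ℕ) ∈ 𝓕)
    {i j : ℕ} (hij : i < j) (hF : ({i, j} : Finset ℕ) ∈ 𝓕) (p : ℕ) :
    ({p} : Finset ℕ) ∈ loc 𝓕 j := by
  by_cases hp : p ≤ j
  · exact ⟨{p}, hs p, Finset.Subset.refl _, p, Finset.mem_singleton_self p, hp⟩
  · push Not at hp
    have hi : (fun x => if x = j then p else x) i = i := by
      show (if i = j then p else i) = i
      rw [if_neg hij.ne]
    have hj : (fun x => if x = j then p else x) j = p := by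
      show (if j = j then p else j) = p
      rw [if_pos rfl]
    have hm : Finset.image (fun x => if x = j then p else x) {i, j} ∈ 𝓕 := by
      refine h.spreading {i, j} hF _ ?_ ?_
      · intro x hx y hy hxy
        rw [Finset.mem_coe, Finset.mem_insert, Finset.mem_singleton] at hx hy
        rcases hx with rfl | rfl <;> rcases hy with rfl | rfl
        · exact absurd hxy (lt_irrefl _)
        · rw [hi, hj]; omega
        · omega
        · exact absurd hxy (lt_irrefl _)
      · intro x hx
        rw [Finset.mem_insert, Finset.mem_singleton] at hx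
        rcases hx with rfl | rfl
        · exact hi.ge
        · exact hp.le.trans hj.ge
    rw [Finset.image_insert, Finset.image_singleton] at hm
    simp only [hij.ne, if_false, if_true] at hm
    exact ⟨{i, p}, hm, by simp, i, Finset.mem_insert_self _ _, hij.le⟩

theorem GS2_coord {𝓕 : Set (Finset ℕ)} (h : IsRegularFamily 𝓕)
    (hs : ∀ n, ({n} : Finset ℕ) ∈ 𝓕) (hm : IsMult 𝓕) {X : Type*} [NormedAddCommGroup X]
    [NormedSpace ℝ X] {e : ℕ → X} (hX : IsCombinatorialSpace 𝓕 X e) : Nonempty (GCoord X) := by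
  obtain ⟨coord, h1, h2, h3, h4⟩ := C1_coord h hs hX
  obtain ⟨⟨F, hF, hFc⟩, hm2⟩ := hm
  obtain ⟨i, j, hij, hij2⟩ := GS2_pair h hF hFc
  refine ⟨⟨𝓕, h.hereditary, hs, GS2_wf h, j, GS2_loc h hs hij hij2, hm2, coord, e, h1,
    ?_, h2, h3, ?_⟩⟩
  · intro k
    obtain ⟨F, -, hF, hn⟩ := (C0_norm h hs hX (Finsupp.single k 1)).2
    rw [Finsupp.linearCombination_single, one_smul] at hn
    rw [hn]
    have hF1 : F ⊆ {k} := hF.trans Finsupp.support_single_subset
    refine (Finset.sum_le_sum_of_subset_of_nonneg hF1 (fun _ _ _ => abs_nonneg _)).trans ?_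
    rw [Finset.sum_singleton, Finsupp.single_eq_same, abs_one]
  · intro x ε hε
    obtain ⟨s, hs'⟩ := h4 x ε hε
    refine ⟨s.sup id + 1, fun F hF hi => hs' F hF ?_⟩
    rw [Finset.disjoint_left]
    intro i hiF his
    have h5 := hi i hiF
    have h6 : i ≤ s.sup id := Finset.le_sup (f := id) his
    omega

end Pool.Agent.H182R2.CG
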