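import Pool.Agent.H182R2.CG.GDefs
import Pool.Agent.H182R2.CB.R1_sym
import Pool.Agent.H182R2.CB.E2_family

namespace Pool.Agent.H182R2.CG

open Finset Filter Topology Pool.Agent.H182R2.CB

section N

variable {X : Type*} [NormedAddCommGroup X] [NormedSpace ℝ X]

theorem G1_upper (S : GCoord X) (m : ℕ) (u : ℕ → X) (b : ℕ → ℕ) (M : ℝ) (η : ℕ → ℝ)
    (hM0 : 0 ≤ M) (hη : ∀ j, 0 ≤ η j) (hηsum : ∑ j ∈ range m, η j ≤ 1)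
    (hM : ∀ j < m, ‖u j‖ ≤ M)
    (htail : ∀ j < m, ∀ F ∈ S.fam, (∀ i ∈ F, b j < i) → ∑ k ∈ F, |S.co k (u j)| ≤ η j)
    (hflat : ∀ i j, i < j → j < m → S.Flat (b i) (η j) (u j)) :
    ‖∑ j ∈ range m, u j‖ ≤ M + 1 := by
  sorry

theorem G2_lower (S : GCoord X) (m : ℕ) (v : ℕ → X) (G : ℕ → Finset ℕ) (c : ℝ) (hc : 0 < c)
    (hlt : ∀ i j, i < j → j < m → ∀ a ∈ G i, ∀ d ∈ G j, a < d)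
    (hU : (range m).biUnion G ∈ S.fam)
    (hbig : ∀ j < m, c ≤ ∑ k ∈ G j, |S.co k (v j)|)
    (hoff : ∀ i j, i < m → j < m → i ≠ j → ∑ k ∈ G j, |S.co k (v i)| ≤ c / (2 * m))
    (θ : ℕ → ℝ) :
    c / 2 * ∑ j ∈ range m, |θ j| ≤ ‖∑ j ∈ range m, θ j • v j‖ := by
  sorry

theorem G3_spread (S : GCoord X) (v : ℕ → X)
    (hnull : ∀ p, Tendsto (fun k => S.co p (v k)) atTop (𝓝 0)) (c : ℝ) (hc : 0 < c) (b : ℕ)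
    (hbig : ∀ K, ∃ k ≥ K, ¬ S.Flat b c (v k)) (m L : ℕ) :
    ∃ k : ℕ → ℕ, StrictMono k ∧ (∀ j, L ≤ k j) ∧
      ∀ θ : ℕ → ℝ, c / 4 * ∑ j ∈ range m, |θ j| ≤ ‖∑ j ∈ range m, θ j • v (k j)‖ := by
  sorry

theorem G3c_spread (S : GCoord X) (v : ℕ → X)
    (hnull : ∀ p, Tendsto (fun k => S.co p (v k)) atTop (𝓝 0)) (c : ℝ) (hc : 0 < c)
    (hbig : ∀ K, ∃ k ≥ K, ∃ p, c ≤ |S.co p (v k)|) (m L : ℕ) :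
    ∃ k : ℕ → ℕ, StrictMono k ∧ (∀ j, L ≤ k j) ∧
      ∀ θ : ℕ → ℝ, c / 2 * ∑ j ∈ range m, |θ j| ≤ ‖∑ j ∈ range m, θ j • v (k j)‖ := by
  sorry

/-- Small convex combinations of a bounded coordinatewise null sequence. -/
theorem G4_convex (S : GCoord X) (D : ℕ → X) (M : ℝ) (hM : ∀ j, ‖D j‖ ≤ M)
    (hnull : ∀ p, Tendsto (fun k => S.co p (D k)) atTop (𝓝 0)) (ε : ℝ) (hε : 0 < ε) (L : ℕ) :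
    ∃ θ : ℕ →₀ ℝ, (∀ j, 0 ≤ θ j) ∧ (∀ j < L, θ j = 0) ∧ (θ.sum fun _ r => r) = 1 ∧
      ‖θ.sum fun j r => r • D j‖ ≤ ε := by
  sorry

theorem G5_comb (S : GCoord X) (D : ℕ → X) (M : ℝ) (hM : ∀ j, ‖D j‖ ≤ M)
    (hnull : ∀ p, Tendsto (fun k => S.co p (D k)) atTop (𝓝 0)) (R L : ℕ) :
    ∃ θ : ℕ →₀ ℝ, (∀ j, 0 ≤ θ j) ∧ (∀ j < L, θ j = 0) ∧ (θ.sum fun _ r => r) = R ∧
      ‖θ.sum fun j r => r • D j‖ ≤ M + 1 := by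
  sorry

theorem G6_subseq (S : GCoord X) (w : ℕ → X) (M : ℝ) (hM : ∀ j, ‖w j‖ ≤ M) :
    ∃ φ : ℕ → ℕ, StrictMono φ ∧ ∀ p, ∃ l, Tendsto (fun k => S.co p (w (φ k))) atTop (𝓝 l) := by
  sorry

theorem G7_no_l1 (S : GCoord X) (d : ℕ → X) (M : ℝ) (hM : ∀ j, ‖d j‖ ≤ M) (c : ℝ) (hc : 0 < c) :
    ¬ ∀ (θ : ℕ → ℝ) (m : ℕ), c * ∑ j ∈ range m, |θ j| ≤ ‖∑ j ∈ range m, θ j • d j‖ := by
  sorry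

theorem G8_weak (S : GCoord X) (D : ℕ → X) (M : ℝ) (hM : ∀ j, ‖D j‖ ≤ M)
    (hnull : ∀ p, Tendsto (fun k => S.co p (D k)) atTop (𝓝 0)) (f : X →L[ℝ] ℝ) :
    Tendsto (fun k => f (D k)) atTop (𝓝 0) := by
  sorry

theorem GR2_claimA (S : GCoord X) (R : BRep X) (x : X) (B s : Finset ℕ) (hBs : B ⊆ s) (ε : ℝ)
    (hε : 0 < ε) (hs : ∀ g : Equiv.Perm ℕ, (∀ i ∈ s, g i = i) → ‖R.ρ g x - x‖ ≤ ε)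
    (h : ℕ → Equiv.Perm ℕ) (hB : ∀ j, ∀ i ∈ B, h j i = i)
    (hd : ∀ i j, i ≠ j → ∀ a ∈ s \ B, ∀ b ∈ s \ B, h i a ≠ h j b) :
    ∃ φ : ℕ → ℕ, StrictMono φ ∧
      ∀ b : ℕ, ∃ K₀ : ℕ, ∀ k l, K₀ ≤ k → K₀ ≤ l →
        S.Flat b (12 * R.K * ε) (R.ρ (h (φ k)) x - R.ρ (h (φ l)) x) := by
  sorry

theorem GR3_pair (S : GCoord X) (R : BRep X) (x : X) (B s t : Finset ℕ) (hBs : B ⊆ s) (b : ℕ)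
    (η : ℝ) (hη : 0 < η) :
    ∃ h h' : Equiv.Perm ℕ, (∀ i ∈ B, h i = i) ∧ (∀ i ∈ B, h' i = i) ∧
      (∀ a ∈ s \ B, h a ∉ t) ∧ (∀ a ∈ s \ B, h' a ∉ t) ∧
      (∀ a ∈ s \ B, ∀ c ∈ s \ B, h a ≠ h' c) ∧
      S.Flat b η (R.ρ h x - R.ρ h' x) := by
  sorry

theorem GR4_claimB (S : GCoord X) (R : BRep X) (x : X) (B s : Finset ℕ) (hBs : B ⊆ s) (ε : ℝ)
    (hε : 0 < ε) (hs : ∀ g : Equiv.Perm ℕ, (∀ i ∈ s, g i = i) → ‖R.ρ g x - x‖ ≤ ε) (N : ℕ)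
    (k k' : ℕ → Equiv.Perm ℕ) (hB : ∀ j < N, ∀ i ∈ B, k j i = i)
    (hB' : ∀ j < N, ∀ i ∈ B, k' j i = i)
    (hd : ∀ i < N, ∀ j < N, i ≠ j → ∀ a ∈ s \ B, ∀ b ∈ s \ B, k i a ≠ k j b)
    (hd' : ∀ i < N, ∀ j < N, i ≠ j → ∀ a ∈ s \ B, ∀ b ∈ s \ B, k' i a ≠ k' j b)
    (hdd : ∀ i < N, ∀ j < N, ∀ a ∈ s \ B, ∀ b ∈ s \ B, k i a ≠ k' j b) :
    ‖∑ j ∈ range N, (R.ρ (k j) x - R.ρ (k' j) x)‖ ≤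
      R.K * (2 * R.K * ‖x‖ + 1) + 2 * N * R.K * ε := by
  sorry

theorem GR5_avg (S : GCoord X) (R : BRep X) (x : X) (B : Finset ℕ) (N N' : ℕ) (hN : 0 < N)
    (hN' : 0 < N') (ε ε' : ℝ) (hε : 0 < ε) (hε' : 0 < ε') (A A' : X)
    (hA : IsAvg R x B N ε A) (hA' : IsAvg R x B N' ε' A') :
    ‖A - A'‖ ≤ (R.K * (2 * R.K * ‖x‖ + 1) / N + 2 * R.K * ε) +
      (R.K * (2 * R.K * ‖x‖ + 1) / N' + 2 * R.K * ε') := by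
  sorry

theorem GR6_center [CompleteSpace X] (S : GCoord X) (R : BRep X) (x : X) (B : Finset ℕ) :
    ∃ y : X, (∀ g : Equiv.Perm ℕ, (∀ i ∈ B, g i = i) → R.ρ g y = y) ∧ ‖y‖ ≤ R.K * ‖x‖ ∧
      ∀ (b : ℕ) (η : ℝ), 0 < η → ∀ s₀ t : Finset ℕ, ∃ h : Equiv.Perm ℕ, (∀ i ∈ B, h i = i) ∧
        (∀ a ∈ s₀ \ B, h a ∉ t) ∧ S.Flat b η (R.ρ h x - y) := by
  sorry

theorem GR7_key [CompleteSpace X] (S : GCoord X) (R : BRep X) (x : ℕ → X) (M : ℝ)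
    (hM : ∀ n, ‖x n‖ ≤ M) (δ : ℝ) (hδ : 0 < δ) :
    ∃ (B : Finset ℕ) (n₀ : ℕ), ∀ n ≥ n₀, ∃ y : X,
      (∀ g : Equiv.Perm ℕ, (∀ i ∈ B, g i = i) → R.ρ g y = y) ∧ ‖y‖ ≤ R.K ^ 3 * M ∧
        ∀ p, |S.co p (x n - y)| ≤ δ := by
  sorry

theorem GR8_capture (S : GCoord X) (R : BRep X) (g : Equiv.Perm ℕ) (D : ℕ → X) (M : ℝ)
    (hM : ∀ j, ‖D j‖ ≤ M) (hnull : ∀ p, Tendsto (fun k => S.co p (D k)) atTop (𝓝 0))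
    (hbig : ∀ j, ∃ p, 1 / 2 ≤ |S.co p (D j)|) :
    ∃ b : ℕ, ∀ J, ∃ j ≥ J, ¬ S.Flat b (1 / (8 * R.K)) (R.ρ g (D j)) := by
  sorry

theorem GR9_lower (S : GCoord X) (R : BRep X) (D : ℕ → X) (M : ℝ) (hM : ∀ j, ‖D j‖ ≤ M)
    (hnull : ∀ p, Tendsto (fun k => S.co p (D k)) atTop (𝓝 0))
    (hbig : ∀ j, ∃ p, 1 / 2 ≤ |S.co p (D j)|) (m : ℕ) (g : ℕ → Equiv.Perm ℕ) :
    ∃ j : ℕ → ℕ, m * (1 / (16 * R.K)) ≤ ‖∑ l ∈ range m, R.ρ (g l) (D (j l))‖ := by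
  sorry

theorem GR10_upper [CompleteSpace X] (S : GCoord X) (R : BRep X)
    (hfix : ∀ y : X, (∀ g, R.ρ g y = y) → y = 0) (m : ℕ) (z : ℕ → X) (B : ℕ → Finset ℕ) (M : ℝ)
    (hM0 : 0 ≤ M) (hz : ∀ l < m, ‖z l‖ ≤ M)
    (hzB : ∀ l < m, ∀ g : Equiv.Perm ℕ, (∀ i ∈ B l, g i = i) → R.ρ g (z l) = z l)
    (hd : ∀ l < m, ∀ l' < m, l ≠ l' → Disjoint (B l) (B l')) :
    ‖∑ l ∈ range m, z l‖ ≤ R.K * (R.K * M + 1) := by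
  sorry

theorem GR11_fixed [CompleteSpace X] (S : GCoord X) (R : BRep X) :
    ∃ y : X, y ≠ 0 ∧ ∀ g, R.ρ g y = y := by
  sorry

end N

theorem GS2_coord {𝓕 : Set (Finset ℕ)} (h : IsRegularFamily 𝓕)
    (hs : ∀ n, ({n} : Finset ℕ) ∈ 𝓕) (hm : IsMult 𝓕) {X : Type*} [NormedAddCommGroup X]
    [NormedSpace ℝ X] {e : ℕ → X} (hX : IsCombinatorialSpace 𝓕 X e) : Nonempty (GCoord X) := by
  sorry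

/-! ### The families -/

theorem GT1_regular {𝓖 : Set (Finset ℕ)} (h : IsRegularFamily 𝓖)
    (hs : ∀ n, ({n} : Finset ℕ) ∈ 𝓖) :
    IsRegularFamily (sch 𝓖) ∧ ∀ n, ({n} : Finset ℕ) ∈ sch 𝓖 := by
  sorry

theorem GT2_mult {𝓖 : Set (Finset ℕ)} (h : IsRegularFamily 𝓖)
    (hs : ∀ n, ({n} : Finset ℕ) ∈ 𝓖) : IsMult (sch 𝓖) := by
  sorry

theorem GT3_mult {𝓕 : Set (Finset ℕ)} (h : IsRegularFamily 𝓕)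
    (hU : ∀ m : ℕ, ∃ F ∈ 𝓕, m ≤ F.card)
    (hL : ∀ n : ℕ, ∃ c : ℕ, ∀ F ∈ 𝓕, n ∈ F → F.card ≤ c) : IsMult 𝓕 := by
  sorry

theorem GT5_regular {𝓖 : ℕ → Set (Finset ℕ)} (h : ∀ n, IsRegularFamily (𝓖 n))
    (hs : ∀ n p, ({p} : Finset ℕ) ∈ 𝓖 n) :
    IsRegularFamily (limFam 𝓖) ∧ ∀ p, ({p} : Finset ℕ) ∈ limFam 𝓖 := by
  sorry

theorem GT5_mult {𝓖 : ℕ → Set (Finset ℕ)} (h : ∀ n, IsRegularFamily (𝓖 n))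
    (hs : ∀ n p, ({p} : Finset ℕ) ∈ 𝓖 n)
    (hE : ∀ b : ℕ, ∃ n' N : ℕ, ∀ n ≤ b, ∀ F ∈ sch (𝓖 n), (∀ p ∈ F, N ≤ p) → F ∈ 𝓖 n') :
    IsMult (limFam 𝓖) := by
  sorry

/-- Renorming: if `𝓔 ⊆ 𝓕` and every member of `𝓕` is a union of `n` members of `𝓔`, then the
combinatorial space of `𝓕` is isomorphic to one of `𝓔`. -/
theorem GREN {𝓔 𝓕 : Set (Finset ℕ)} (hE : IsRegularFamily 𝓔) (hEs : ∀ n, ({n} : Finset ℕ) ∈ 𝓔)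
    (hF : IsRegularFamily 𝓕) (hEF : 𝓔 ⊆ 𝓕) (n : ℕ)
    (hn : ∀ F ∈ 𝓕, ∃ G : ℕ → Finset ℕ, (∀ i < n, G i ∈ 𝓔) ∧ F = (range n).biUnion G)
    {X : Type*} [NormedAddCommGroup X] [NormedSpace ℝ X] [CompleteSpace X] {e : ℕ → X}
    (hX : IsCombinatorialSpace 𝓕 X e) :
    ∃ (Y : Type _) (_ : NormedAddCommGroup Y) (_ : NormedSpace ℝ Y) (_ : CompleteSpace Y)
      (e' : ℕ → Y), IsCombinatorialSpace 𝓔 Y e' ∧ Nonempty (X ≃L[ℝ] Y) := by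
  sorry

theorem GTRA {X Y : Type*} [NormedAddCommGroup X] [NormedSpace ℝ X] [NormedAddCommGroup Y]
    [NormedSpace ℝ Y] (T : X ≃L[ℝ] Y) (Γ : Type*) [Group Γ] (h : Displayable X Γ) :
    Displayable Y Γ := by
  sorry

end Pool.Agent.H182R2.CG
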