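import Pool.Agent.H182R2.CG.GDefs

namespace Pool.Agent.H182R2.CG

open Finset Filter Topology Pool.Agent.H182R2.CB

/-- unions of `n` successive members -/
def GT1_U (𝓖 : Set (Finset ℕ)) (n : ℕ) : Set (Finset ℕ) :=
  {F | ∃ G : ℕ → Finset ℕ, (∀ i < n, G i ∈ 𝓖) ∧
    (∀ i j, i < j → j < n → ∀ a ∈ G i, ∀ c ∈ G j, a < c) ∧ F = (Finset.range n).biUnion G}

theorem GT1_U_succ {𝓖 : Set (Finset ℕ)} (h0 : (∅ : Finset ℕ) ∈ 𝓖) (n : ℕ) (F : Finset ℕ)
    (hF : F ∈ GT1_U 𝓖 n) : F ∈ GT1_U 𝓖 (n + 1) := by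
  obtain ⟨G, h1, h2, h3⟩ := hF
  refine ⟨fun i => if i < n then G i else ∅, ?_, ?_, ?_⟩
  · intro i _
    show (if i < n then G i else ∅) ∈ 𝓖
    split_ifs with h
    · exact h1 i h
    · exact h0
  · intro i j hij _ a ha c hc
    have hc' : c ∈ (if j < n then G j else ∅) := hc
    have ha' : a ∈ (if i < n then G i else ∅) := ha
    split_ifs at hc' with h4
    · rw [if_pos (by omega)] at ha'
      exact h2 i j hij h4 a ha' c hc'
    · simp at hc'
  · rw [h3]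
    ext a
    simp only [Finset.mem_biUnion, Finset.mem_range]
    constructor
    · rintro ⟨i, hi, ha⟩
      exact ⟨i, by omega, by rw [if_pos hi]; exact ha⟩
    · rintro ⟨i, hi, ha⟩
      split_ifs at ha with h4
      · exact ⟨i, h4, ha⟩
      · simp at ha

theorem GT1_U_le {𝓖 : Set (Finset ℕ)} (h0 : (∅ : Finset ℕ) ∈ 𝓖) {n m : ℕ} (hnm : n ≤ m)
    (F : Finset ℕ) (hF : F ∈ GT1_U 𝓖 n) : F ∈ GT1_U 𝓖 m := by
  induction m, hnm using Nat.le_induction with
  | base => exact hF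
  | succ m _ ih => exact GT1_U_succ h0 m F ih

open Classical in
/-- the piece of `A` in `[m, M]` -/
noncomputable def GT1_F (A : Set ℕ) (m M : ℕ) : Finset ℕ := (Finset.Icc m M).filter (fun i => i ∈ A)

theorem GT1_mem {A : Set ℕ} {m M i : ℕ} : i ∈ GT1_F A m M ↔ (m ≤ i ∧ i ≤ M) ∧ i ∈ A := by
  simp only [GT1_F, Finset.mem_filter, Finset.mem_Icc]

/-- no infinite set all of whose finite subsets are in the family -/
def GT1_NI (𝓕 : Set (Finset ℕ)) : Prop :=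
  ∀ A : Set ℕ, A.Infinite → ∃ F : Finset ℕ, (∀ i ∈ F, i ∈ A) ∧ F ∉ 𝓕

theorem GT1_key {𝓖 : Set (Finset ℕ)} (hher : ∀ F ∈ 𝓖, ∀ G ⊆ F, G ∈ 𝓖) (hNI : GT1_NI 𝓖)
    (A : Set ℕ) (hA : A.Infinite) (n : ℕ) :
    ∀ m : ℕ, ∃ M, m ≤ M ∧ GT1_F A m M ∉ GT1_U 𝓖 n := by
  induction n with
  | zero =>
    intro m
    obtain ⟨a, ha, hma⟩ := hA.exists_gt m
    refine ⟨a, hma.le, ?_⟩
    rintro ⟨G, _, _, h3⟩
    have h4 : a ∈ GT1_F A m a := GT1_mem.2 ⟨⟨hma.le, le_rfl⟩, ha⟩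
    rw [h3] at h4
    simp at h4
  | succ n ih =>
    intro m
    -- a piece of the tail not in the family
    have hA' : (A ∩ Set.Ici m).Infinite := by
      have h1 : (A \ Set.Iio m).Infinite := hA.sdiff (Set.finite_Iio m)
      refine h1.mono ?_
      rintro x ⟨h2, h3⟩
      exact ⟨h2, Set.mem_Ici.2 (not_lt.1 (fun h => h3 (Set.mem_Iio.2 h)))⟩
    obtain ⟨F0, hF0, hF0n⟩ := hNI _ hA'
    obtain ⟨M1, hM1⟩ : ∃ M1 : ℕ, ∀ i ∈ F0, i < M1 :=
      ⟨F0.sup id + 1, fun i hi => Nat.lt_succ_of_le (Finset.le_sup (f := id) hi)⟩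
    obtain ⟨M, hM, hMn⟩ := ih (max M1 m)
    refine ⟨M, le_trans (le_max_right _ _) hM, ?_⟩
    rintro ⟨G, h1, h2, h3⟩
    -- the first set does not reach the tail
    have h4 : ∀ a ∈ G 0, a < max M1 m := by
      intro a ha
      by_contra hcon
      have hcon : max M1 m ≤ a := not_lt.1 hcon
      apply hF0n
      refine hher (G 0) (h1 0 (by omega)) F0 (fun i hi => ?_)
      have hi1 := hM1 i hi
      have hi2 := hF0 i hi
      have hi3 : i ∈ GT1_F A m M := by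
        refine GT1_mem.2 ⟨⟨hi2.2, ?_⟩, hi2.1⟩
        have := le_max_left M1 m
        omega
      rw [h3, Finset.mem_biUnion] at hi3
      obtain ⟨j, hj, hij⟩ := hi3
      rw [Finset.mem_range] at hj
      rcases Nat.eq_zero_or_pos j with h5 | h5
      · rw [h5] at hij
        exact hij
      · have h6 := h2 0 j h5 hj a ha i hij
        have := le_max_left M1 m
        omega
    apply hMn
    refine ⟨fun i => (G (i + 1)).filter (fun a => max M1 m ≤ a), ?_, ?_, ?_⟩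
    · intro i hi
      exact hher (G (i + 1)) (h1 (i + 1) (by omega)) _ (Finset.filter_subset _ _)
    · intro i j hij hj a ha c hc
      exact h2 (i + 1) (j + 1) (by omega) (by omega) a (Finset.mem_filter.1 ha).1 c
        (Finset.mem_filter.1 hc).1
    · ext a
      rw [GT1_mem, Finset.mem_biUnion]
      constructor
      · rintro ⟨⟨h5, h6⟩, h7⟩
        have h8 : a ∈ GT1_F A m M := GT1_mem.2 ⟨⟨le_trans (le_max_right _ _) h5, h6⟩, h7⟩
        rw [h3, Finset.mem_biUnion] at h8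
        obtain ⟨j, hj, hij⟩ := h8
        rw [Finset.mem_range] at hj
        rcases Nat.eq_zero_or_pos j with h9 | h9
        · rw [h9] at hij
          have := h4 a hij
          omega
        · refine ⟨j - 1, Finset.mem_range.2 (by omega), ?_⟩
          rw [Finset.mem_filter]
          refine ⟨?_, h5⟩
          rw [show j - 1 + 1 = j by omega]
          exact hij
      · rintro ⟨j, hj, hij⟩
        rw [Finset.mem_filter] at hij
        rw [Finset.mem_range] at hj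
        have h8 : a ∈ GT1_F A m M := by
          rw [h3, Finset.mem_biUnion]
          exact ⟨j + 1, Finset.mem_range.2 (by omega), hij.1⟩
        rw [GT1_mem] at h8
        exact ⟨⟨hij.2, h8.1.2⟩, h8.2⟩

theorem GT1_NI_sch {𝓖 : Set (Finset ℕ)} (hher : ∀ F ∈ 𝓖, ∀ G ⊆ F, G ∈ 𝓖)
    (h0 : (∅ : Finset ℕ) ∈ 𝓖) (hNI : GT1_NI 𝓖) : GT1_NI (sch 𝓖) := by
  intro A hA
  obtain ⟨p, hp⟩ := hA.nonempty
  obtain ⟨M, hM, hMn⟩ := GT1_key hher hNI A hA (p + 1) p
  refine ⟨GT1_F A p M, fun i hi => (GT1_mem.1 hi).2, ?_⟩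
  rintro ⟨n, G, h1, h2, h3, h4⟩
  apply hMn
  have h5 : n ≤ p + 1 := h4 p (GT1_mem.2 ⟨⟨le_rfl, hM⟩, hp⟩)
  exact GT1_U_le h0 h5 _ ⟨G, h1, h2, h3⟩

/-- the indicators of a family -/
def GT1_C (𝓕 : Set (Finset ℕ)) : Set (ℕ → Bool) := {χ | ∃ F ∈ 𝓕, ∀ i, χ i = true ↔ i ∈ F}

theorem GT1_C_eq {𝓕 : Set (Finset ℕ)} (hher : ∀ F ∈ 𝓕, ∀ G ⊆ F, G ∈ 𝓕) (hNI : GT1_NI 𝓕) :
    GT1_C 𝓕 = ⋂ F ∈ {F : Finset ℕ | F ∉ 𝓕}, {χ : ℕ → Bool | ∃ i ∈ F, χ i = false} := by
  ext χ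
  simp only [Set.mem_iInter]
  constructor
  · rintro ⟨F₀, hF₀, hχ⟩ F hF
    by_contra hcon
    apply hF
    refine hher F₀ hF₀ F (fun i hi => ?_)
    rw [← hχ i]
    by_contra h1
    exact hcon ⟨i, hi, by simpa using h1⟩
  · intro h
    have hs : ∀ F : Finset ℕ, (∀ i ∈ F, χ i = true) → F ∈ 𝓕 := by
      intro F hF
      by_contra hcon
      obtain ⟨i, hi, h0⟩ := h F hcon
      rw [hF i hi] at h0
      exact Bool.noConfusion h0
    have hfin : {i | χ i = true}.Finite := by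
      by_contra hinf
      obtain ⟨F, h1, h2⟩ := hNI _ hinf
      exact h2 (hs F h1)
    refine ⟨hfin.toFinset, hs _ ?_, ?_⟩
    · intro i hi
      simpa using hi
    · intro i
      simp

theorem GT1_closed {𝓕 : Set (Finset ℕ)} (hher : ∀ F ∈ 𝓕, ∀ G ⊆ F, G ∈ 𝓕) (hNI : GT1_NI 𝓕) :
    IsClosed (GT1_C 𝓕) := by
  rw [GT1_C_eq hher hNI]
  apply isClosed_biInter
  intro F _
  have : {χ : ℕ → Bool | ∃ i ∈ F, χ i = false} = ⋃ i ∈ F, {χ : ℕ → Bool | χ i = false} := by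
    ext χ
    simp
  rw [this]
  apply isClosed_biUnion_finset
  intro i _
  exact isClosed_eq (continuous_apply i) continuous_const

theorem GT1_NI_of_compact {𝓖 : Set (Finset ℕ)} (hc : IsCompact (GT1_C 𝓖)) : GT1_NI 𝓖 := by
  classical
  intro A hA
  by_contra hcon
  have hall : ∀ F : Finset ℕ, (∀ i ∈ F, i ∈ A) → F ∈ 𝓖 := by
    intro F hF
    by_contra h
    exact hcon ⟨F, hF, h⟩
  have hcl : IsClosed (GT1_C 𝓖) := hc.isClosed
  have hmem : ∀ n : ℕ, (fun i => decide (i ∈ A ∧ i ≤ n)) ∈ GT1_C 𝓖 := by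
    intro n
    refine ⟨GT1_F A 0 n, hall _ (fun i hi => (GT1_mem.1 hi).2), fun i => ?_⟩
    rw [GT1_mem, decide_eq_true_eq]
    constructor
    · rintro ⟨h1, h2⟩
      exact ⟨⟨Nat.zero_le _, h2⟩, h1⟩
    · rintro ⟨⟨_, h2⟩, h1⟩
      exact ⟨h1, h2⟩
  have hlim : Tendsto (fun n : ℕ => (fun i => decide (i ∈ A ∧ i ≤ n) : ℕ → Bool)) atTop
      (𝓝 (fun i => decide (i ∈ A))) := by
    rw [tendsto_pi_nhds]
    intro i
    refine tendsto_const_nhds.congr' ?_
    filter_upwards [eventually_ge_atTop i] with n hn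
    simp [hn]
  have hA2 := hcl.mem_of_tendsto hlim (Eventually.of_forall hmem)
  obtain ⟨F, _, hF⟩ := hA2
  apply hA
  refine F.finite_toSet.subset (fun i hi => ?_)
  rw [Finset.mem_coe, ← hF i]
  simpa using hi

theorem GT1_regular {𝓖 : Set (Finset ℕ)} (h : IsRegularFamily 𝓖)
    (hs : ∀ n, ({n} : Finset ℕ) ∈ 𝓖) :
    IsRegularFamily (sch 𝓖) ∧ ∀ n, ({n} : Finset ℕ) ∈ sch 𝓖 := by
  have h0 : (∅ : Finset ℕ) ∈ 𝓖 := h.hereditary _ (hs 0) ∅ (Finset.empty_subset _)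
  have hher : ∀ F ∈ sch 𝓖, ∀ G ⊆ F, G ∈ sch 𝓖 := by
    rintro F ⟨n, G, h1, h2, h3, h4⟩ F' hF'
    refine ⟨n, fun i => G i ∩ F', ?_, ?_, ?_, ?_⟩
    · intro i hi
      exact h.hereditary _ (h1 i hi) _ Finset.inter_subset_left
    · intro i j hij hj a ha c hc
      exact h2 i j hij hj a (Finset.mem_inter.1 ha).1 c (Finset.mem_inter.1 hc).1
    · ext a
      rw [Finset.mem_biUnion]
      constructor
      · intro ha
        have h5 := hF' ha
        rw [h3, Finset.mem_biUnion] at h5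
        obtain ⟨i, hi, hai⟩ := h5
        exact ⟨i, hi, Finset.mem_inter.2 ⟨hai, ha⟩⟩
      · rintro ⟨i, _, hai⟩
        exact (Finset.mem_inter.1 hai).2
    · intro p hp
      exact h4 p (hF' hp)
  refine ⟨⟨hher, ?_, ?_⟩, ?_⟩
  · rintro F ⟨n, G, h1, h2, h3, h4⟩ φ hφ hle
    have hsub : ∀ i < n, ∀ a ∈ G i, a ∈ F := by
      intro i hi a ha
      rw [h3, Finset.mem_biUnion]
      exact ⟨i, Finset.mem_range.2 hi, ha⟩
    refine ⟨n, fun i => (G i).image φ, ?_, ?_, ?_, ?_⟩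
    · intro i hi
      refine h.spreading _ (h1 i hi) φ ?_ (fun a ha => hle a (hsub i hi a ha))
      exact hφ.mono (fun a ha => hsub i hi a ha)
    · intro i j hij hj a ha c hc
      obtain ⟨a', ha', rfl⟩ := Finset.mem_image.1 ha
      obtain ⟨c', hc', rfl⟩ := Finset.mem_image.1 hc
      exact hφ (hsub i (by omega) a' ha') (hsub j hj c' hc') (h2 i j hij hj a' ha' c' hc')
    · ext a
      rw [Finset.mem_image, Finset.mem_biUnion]
      constructor
      · rintro ⟨b, hb, rfl⟩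
        rw [h3, Finset.mem_biUnion] at hb
        obtain ⟨i, hi, hbi⟩ := hb
        exact ⟨i, hi, Finset.mem_image_of_mem φ hbi⟩
      · rintro ⟨i, hi, hai⟩
        obtain ⟨b, hb, rfl⟩ := Finset.mem_image.1 hai
        exact ⟨b, hsub i (Finset.mem_range.1 hi) b hb, rfl⟩
    · intro p hp
      obtain ⟨b, hb, rfl⟩ := Finset.mem_image.1 hp
      have h5 := h4 b hb
      have h6 := hle b hb
      omega
  · have hNI : GT1_NI (sch 𝓖) := GT1_NI_sch h.hereditary h0 (GT1_NI_of_compact h.compact)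
    exact (GT1_closed hher hNI).isCompact
  · intro n
    refine ⟨1, fun _ => {n}, fun _ _ => hs n, ?_, ?_, ?_⟩
    · intro i j hij hj
      omega
    · ext a
      simp
    · intro p _
      omega

end Pool.Agent.H182R2.CG
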