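import Pool.Agent.H182R2.CG.GDefs

/-!
# Task GT2_mult: `sch` of a regular family is multiplicative

Proved by helper528 for the project of helper182.
-/

namespace Pool.Agent.H182R2.CG

open Pool.Agent.H182R2.CB

theorem GT2_mult {𝓖 : Set (Finset ℕ)} (h : IsRegularFamily 𝓖)
    (hs : ∀ n, ({n} : Finset ℕ) ∈ 𝓖) : IsMult (sch 𝓖) := by
  have her : ∀ F ∈ 𝓖, ∀ G ⊆ F, G ∈ 𝓖 := h.hereditary
  have hemp : (∅ : Finset ℕ) ∈ 𝓖 := her _ (hs 0) _ (Finset.empty_subset _)
  refine ⟨⟨{1, 2}, ⟨2, fun i => {i + 1}, fun i _ => hs _, ?_, ?_, ?_⟩, by simp⟩, ?_⟩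
  · intro i j hij _ a ha c hc
    simp only [Finset.mem_singleton] at ha hc
    omega
  · ext a
    simp only [Finset.mem_insert, Finset.mem_singleton, Finset.mem_biUnion, Finset.mem_range]
    constructor
    · rintro (ha | ha)
      · exact ⟨0, by omega, by omega⟩
      · exact ⟨1, by omega, by omega⟩
    · rintro ⟨i, hi, ha⟩
      omega
  · intro p hp
    simp only [Finset.mem_insert, Finset.mem_singleton] at hp
    omega
  · intro b m
    refine ⟨m * (b + 1), fun G hG hsucc => ?_⟩
    have hex : ∀ i : ℕ, ∃ (N : ℕ) (H : ℕ → Finset ℕ), i < m → (N ≤ b + 1 ∧ (∀ j < N, H j ∈ 𝓖) ∧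
        (∀ j j', j < j' → j' < N → ∀ a ∈ H j, ∀ c ∈ H j', a < c) ∧
        G i ⊆ (Finset.range N).biUnion H) := by
      intro i
      by_cases hi : i < m
      · obtain ⟨⟨F, ⟨N, H, h1, h2, h3, h4⟩, hGF, p, hp, hpb⟩, _⟩ := hG i hi
        refine ⟨N, H, fun _ => ⟨?_, h1, h2, ?_⟩⟩
        · have := h4 p hp
          omega
        · rw [← h3]
          exact hGF
      · exact ⟨0, fun _ => ∅, fun hi' => absurd hi' hi⟩
    choose N H hNH using hex
    let K : ℕ → Finset ℕ := fun l =>
      if l % (b + 1) < N (l / (b + 1)) then G (l / (b + 1)) ∩ H (l / (b + 1)) (l % (b + 1)) else ∅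
    have hK : ∀ l a, a ∈ K l → l % (b + 1) < N (l / (b + 1)) ∧ a ∈ G (l / (b + 1)) ∧
        a ∈ H (l / (b + 1)) (l % (b + 1)) := by
      intro l a ha
      by_cases hl : l % (b + 1) < N (l / (b + 1))
      · have : K l = G (l / (b + 1)) ∩ H (l / (b + 1)) (l % (b + 1)) := if_pos hl
        rw [this, Finset.mem_inter] at ha
        exact ⟨hl, ha.1, ha.2⟩
      · have : K l = ∅ := if_neg hl
        rw [this] at ha
        exact absurd ha (Finset.notMem_empty _)
    have hdiv : ∀ l < m * (b + 1), l / (b + 1) < m := by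
      intro l hl
      exact Nat.div_lt_of_lt_mul (by rwa [mul_comm] at hl)
    refine ⟨m * (b + 1), K, ?_, ?_, ?_, ?_⟩
    · intro l hl
      by_cases hj : l % (b + 1) < N (l / (b + 1))
      · have e : K l = G (l / (b + 1)) ∩ H (l / (b + 1)) (l % (b + 1)) := if_pos hj
        rw [e]
        exact her _ ((hNH _ (hdiv l hl)).2.1 _ hj) _ Finset.inter_subset_right
      · have e : K l = ∅ := if_neg hj
        rw [e]
        exact hemp
    · intro l l' hll hl' a ha c hc
      obtain ⟨a1, a2, a3⟩ := hK l a ha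
      obtain ⟨c1, c2, c3⟩ := hK l' c hc
      have hle : l / (b + 1) ≤ l' / (b + 1) := Nat.div_le_div_right hll.le
      rcases lt_or_eq_of_le hle with hlt | heq
      · exact hsucc _ _ hlt (hdiv l' hl') a a2 c c2
      · have hmod : l % (b + 1) < l' % (b + 1) := by
          have e1 := Nat.div_add_mod l (b + 1)
          have e2 := Nat.div_add_mod l' (b + 1)
          rw [heq] at e1
          omega
        have hi := hNH _ (hdiv l' hl')
        rw [heq] at a3
        exact hi.2.2.1 _ _ hmod c1 a a3 c c3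
    · ext a
      simp only [Finset.mem_biUnion, Finset.mem_range]
      constructor
      · rintro ⟨i, hi, ha⟩
        obtain ⟨h1, h2, h3, h4⟩ := hNH i hi
        obtain ⟨j, hj, haj⟩ := Finset.mem_biUnion.mp (h4 ha)
        rw [Finset.mem_range] at hj
        have hjb : j < b + 1 := lt_of_lt_of_le hj h1
        have e1 : (j + (b + 1) * i) / (b + 1) = i := by
          rw [Nat.add_mul_div_left _ _ (Nat.succ_pos b), Nat.div_eq_of_lt hjb, zero_add]
        have e2 : (j + (b + 1) * i) % (b + 1) = j := by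
          rw [Nat.add_mul_mod_self_left, Nat.mod_eq_of_lt hjb]
        refine ⟨j + (b + 1) * i, ?_, ?_⟩
        · have : (b + 1) * (i + 1) ≤ (b + 1) * m := Nat.mul_le_mul_left _ hi
          rw [mul_comm m]
          rw [Nat.mul_succ] at this
          omega
        · have e : K (j + (b + 1) * i) = G i ∩ H i j := by
            show (if (j + (b + 1) * i) % (b + 1) < N ((j + (b + 1) * i) / (b + 1)) then
              G ((j + (b + 1) * i) / (b + 1)) ∩
                H ((j + (b + 1) * i) / (b + 1)) ((j + (b + 1) * i) % (b + 1)) else ∅) = _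
            rw [e1, e2, if_pos hj]
          rw [e, Finset.mem_inter]
          exact ⟨ha, haj⟩
      · rintro ⟨l, hl, ha⟩
        exact ⟨l / (b + 1), hdiv l hl, (hK l a ha).2.1⟩
    · intro p hp
      obtain ⟨i, hi, hpi⟩ := Finset.mem_biUnion.mp hp
      have := (hG i (Finset.mem_range.mp hi)).2 p hpi
      omega

end Pool.Agent.H182R2.CG
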