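import Pool.Agent.H182R2.CG.GDefs

/-! GT3_mult. -/

set_option autoImplicit false

namespace Pool.Agent.H182R2.CG

open Pool.Agent.H182R2.CB

theorem GT3_mult_spread {𝓕 : Set (Finset ℕ)} (h : IsRegularFamily 𝓕) {F0 H : Finset ℕ}
    (hF0 : F0 ∈ 𝓕) (hc : H.card ≤ F0.card) (hn : ∀ i ∈ F0, ∀ k ∈ H, i ≤ k) : H ∈ 𝓕 := by
  obtain ⟨F1, hF1, hcard⟩ := Finset.exists_subset_card_eq hc
  have hF1m : F1 ∈ 𝓕 := h.hereditary F0 hF0 F1 hF1
  set e : F1 ≃o H := (F1.orderIsoOfFin hcard).symm.trans (H.orderIsoOfFin rfl) with he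
  set φ : ℕ → ℕ := fun i => if hi : i ∈ F1 then ((e ⟨i, hi⟩ : H) : ℕ) else 0 with hφ
  have hφe : ∀ i (hi : i ∈ F1), φ i = ((e ⟨i, hi⟩ : H) : ℕ) := by
    intro i hi
    rw [hφ]
    exact dif_pos hi
  have himg : F1.image φ = H := by
    ext k
    rw [Finset.mem_image]
    constructor
    · rintro ⟨i, hi, rfl⟩
      rw [hφe i hi]
      exact (e ⟨i, hi⟩).2
    · intro hk
      refine ⟨((e.symm ⟨k, hk⟩ : F1) : ℕ), (e.symm ⟨k, hk⟩).2, ?_⟩
      rw [hφe _ (e.symm ⟨k, hk⟩).2]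
      simp
  rw [← himg]
  refine h.spreading F1 hF1m φ ?_ ?_
  · intro i hi j hj hij
    rw [hφe i hi, hφe j hj]
    have : e ⟨i, hi⟩ < e ⟨j, hj⟩ := e.strictMono (by exact hij)
    exact this
  · intro i hi
    rw [hφe i hi]
    exact hn i (hF1 hi) _ (e ⟨i, hi⟩).2

theorem GT3_mult {𝓕 : Set (Finset ℕ)} (h : IsRegularFamily 𝓕)
    (hU : ∀ m : ℕ, ∃ F ∈ 𝓕, m ≤ F.card)
    (hL : ∀ n : ℕ, ∃ c : ℕ, ∀ F ∈ 𝓕, n ∈ F → F.card ≤ c) : IsMult 𝓕 := by
  refine ⟨hU 2, ?_⟩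
  intro b m
  choose cb hcb using hL
  set c : ℕ := (Finset.range (b + 1)).sup cb with hc
  obtain ⟨F0, hF0, hm⟩ := hU (m * c)
  refine ⟨F0.sup id, ?_⟩
  intro G hG _
  have hGc : ∀ i < m, (G i).card ≤ c := by
    intro i hi
    obtain ⟨F, hF, hsub, p, hp, hpb⟩ := (hG i hi).1
    calc (G i).card ≤ F.card := Finset.card_le_card hsub
      _ ≤ cb p := hcb p F hF hp
      _ ≤ c := Finset.le_sup (f := cb) (Finset.mem_range.mpr (by omega))
  refine GT3_mult_spread h hF0 ?_ ?_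
  · refine le_trans ?_ hm
    refine Finset.card_biUnion_le.trans ?_
    have := Finset.sum_le_card_nsmul (Finset.range m) (fun i => (G i).card) c
      (fun i hi => hGc i (Finset.mem_range.mp hi))
    rwa [Finset.card_range, smul_eq_mul] at this
  · intro i hi k hk
    rw [Finset.mem_biUnion] at hk
    obtain ⟨j, hj, hkj⟩ := hk
    exact (Finset.le_sup (f := id) hi).trans ((hG j (Finset.mem_range.mp hj)).2 k hkj)

end Pool.Agent.H182R2.CG
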