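import Pool.Agent.H182R2.CG.GDefs

/-!
# Limit families are multiplicative
-/

namespace Pool.Agent.H182R2.CG

open Finset Pool.Agent.H182R2.CB

theorem GT5_mult_sch {𝓖 : Set (Finset ℕ)} {F : Finset ℕ} (hF : F ∈ 𝓖) : F ∈ sch 𝓖 := by
  refine ⟨1, fun _ => F, fun _ _ => hF, fun i j hij hj => by omega, ?_, fun p _ => by omega⟩
  ext a
  simp

theorem GT5_mult {𝓖 : ℕ → Set (Finset ℕ)} (h : ∀ n, IsRegularFamily (𝓖 n))
    (hs : ∀ n p, ({p} : Finset ℕ) ∈ 𝓖 n)
    (hE : ∀ b : ℕ, ∃ n' N : ℕ, ∀ n ≤ b, ∀ F ∈ sch (𝓖 n), (∀ p ∈ F, N ≤ p) → F ∈ 𝓖 n') :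
    IsMult (limFam 𝓖) := by
  constructor
  · obtain ⟨n', N, hn'⟩ := hE 0
    have h1 : N ≤ N + n' + 1 := by omega
    refine ⟨{N + n' + 1, N + n' + 1 + 1}, ⟨n', hn' 0 le_rfl _ ?_ ?_, ?_⟩, ?_⟩
    · refine ⟨2, fun i => if i = 0 then {N + n' + 1} else {N + n' + 1 + 1}, ?_, ?_, ?_, ?_⟩
      · intro i _
        dsimp only
        split_ifs
        · exact hs _ _
        · exact hs _ _
      · intro i j hij hj a ha c hc
        have hi0 : i = 0 := by omega
        have hj1 : j ≠ 0 := by omega
        simp only [hi0, if_true, Finset.mem_singleton] at ha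
        simp only [hj1, if_false, Finset.mem_singleton] at hc
        omega
      · ext a
        simp only [Finset.mem_insert, Finset.mem_singleton, Finset.mem_biUnion, Finset.mem_range]
        constructor
        · rintro (ha | ha)
          · exact ⟨0, by norm_num, by simp [ha]⟩
          · exact ⟨1, by norm_num, by simp [ha]⟩
        · rintro ⟨i, hi, hia⟩
          by_cases hi0 : i = 0
          · simp only [hi0, if_true, Finset.mem_singleton] at hia
            exact Or.inl hia
          · simp only [hi0, if_false, Finset.mem_singleton] at hia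
            exact Or.inr hia
      · intro p hp
        simp only [Finset.mem_insert, Finset.mem_singleton] at hp
        omega
    · intro p hp
      simp only [Finset.mem_insert, Finset.mem_singleton] at hp
      omega
    · intro p hp
      simp only [Finset.mem_insert, Finset.mem_singleton] at hp
      omega
    · rw [Finset.card_pair (by omega)]
  · intro b m
    obtain ⟨n', N, hn'⟩ := hE b
    obtain ⟨n'', N'', hn''⟩ := hE n'
    refine ⟨N + N'' + m + n'', fun G hG hlt => ⟨n'', hn'' n' le_rfl _ ?_ ?_, ?_⟩⟩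
    · refine ⟨m, G, fun i hi => ?_, hlt, rfl, fun p hp => ?_⟩
      · obtain ⟨⟨F, ⟨k, hFk, hk⟩, hGF, p, hpF, hpb⟩, hge⟩ := hG i hi
        refine hn' k ((hk p hpF).trans hpb) (G i)
          (GT5_mult_sch ((h k).hereditary F hFk (G i) hGF)) fun q hq => ?_
        have := hge q hq
        omega
      · obtain ⟨i, hi, hpi⟩ := Finset.mem_biUnion.mp hp
        have := (hG i (Finset.mem_range.mp hi)).2 p hpi
        omega
    · intro p hp
      obtain ⟨i, hi, hpi⟩ := Finset.mem_biUnion.mp hp
      have := (hG i (Finset.mem_range.mp hi)).2 p hpi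
      omega
    · intro p hp
      obtain ⟨i, hi, hpi⟩ := Finset.mem_biUnion.mp hp
      have := (hG i (Finset.mem_range.mp hi)).2 p hpi
      omega

end Pool.Agent.H182R2.CG
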