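import Pool.Agent.H182R2.CG.GDefs

open Pool.Agent.H182R2.CB

namespace Pool.Agent.H182R2.CG

theorem GT5_regular_aux (𝓖 : ℕ → Set (Finset ℕ)) (h : ∀ n, IsRegularFamily (𝓖 n))
    (h0 : ∃ F, F ∈ 𝓖 0) :
    IsRegularFamily {F : Finset ℕ | ∃ n, F ∈ 𝓖 n ∧ ∀ i ∈ F, n ≤ i} := by
  refine ⟨?_, ?_, ?_⟩
  · rintro F ⟨n, hF, hn⟩ G hG
    exact ⟨n, (h n).hereditary F hF G hG, fun i hi => hn i (hG hi)⟩
  · rintro F ⟨n, hF, hn⟩ φ hφ hφ'
    refine ⟨n, (h n).spreading F hF φ hφ hφ', fun i hi => ?_⟩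
    obtain ⟨j, hj, rfl⟩ := Finset.mem_image.1 hi
    exact (hn j hj).trans (hφ' j hj)
  · apply IsClosed.isCompact
    rw [← closure_subset_iff_isClosed]
    intro χ hχ
    by_cases hz : ∀ i, χ i = false
    · obtain ⟨F, hF⟩ := h0
      refine ⟨∅, ⟨0, (h 0).hereditary F hF ∅ (by simp), by simp⟩, fun i => by simp [hz i]⟩
    · push Not at hz
      obtain ⟨p, hp⟩ := hz
      have hp : χ p = true := by simpa using hp
      have hVo : IsOpen {χ' : ℕ → Bool | χ' p = true} := by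
        have : {χ' : ℕ → Bool | χ' p = true} = (fun χ' : ℕ → Bool => χ' p) ⁻¹' {true} := rfl
        rw [this]
        exact (isOpen_discrete _).preimage (continuous_apply p)
      have hmem : χ ∈ closure ({χ' : ℕ → Bool | χ' p = true} ∩
          {χ : ℕ → Bool | ∃ F ∈ {F : Finset ℕ | ∃ n, F ∈ 𝓖 n ∧ ∀ i ∈ F, n ≤ i},
            ∀ i, χ i = true ↔ i ∈ F}) :=
        hVo.inter_closure ⟨hp, hχ⟩
      let C : Set (ℕ → Bool) := ⋃ n ∈ Finset.range (p + 1),
        ({χ : ℕ → Bool | ∃ F ∈ 𝓖 n, ∀ i, χ i = true ↔ i ∈ F} ∩ {χ | ∀ q, q < n → χ q = false})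
      have hC : IsClosed C := by
        refine isClosed_biUnion_finset (fun n _ => (h n).compact.isClosed.inter ?_)
        have : {χ : ℕ → Bool | ∀ q, q < n → χ q = false} =
            ⋂ q, ⋂ (_ : q < n), (fun χ' : ℕ → Bool => χ' q) ⁻¹' {false} := by
          ext χ'; simp
        rw [this]
        exact isClosed_iInter fun q => isClosed_iInter fun _ =>
          (isClosed_discrete _).preimage (continuous_apply q)
      have hsub : ({χ' : ℕ → Bool | χ' p = true} ∩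
          {χ : ℕ → Bool | ∃ F ∈ {F : Finset ℕ | ∃ n, F ∈ 𝓖 n ∧ ∀ i ∈ F, n ≤ i},
            ∀ i, χ i = true ↔ i ∈ F}) ⊆ C := by
        rintro χ' ⟨h1, F, ⟨n, hF, hn⟩, h2⟩
        have h1 : χ' p = true := h1
        have hnp : n ≤ p := hn p ((h2 p).1 h1)
        simp only [C, Set.mem_iUnion, Finset.mem_range]
        refine ⟨n, by omega, ⟨F, hF, h2⟩, fun q hq => ?_⟩
        by_contra hne
        have : χ' q = true := by simpa using hne
        have := hn q ((h2 q).1 this)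
        omega
      have hfin := closure_minimal hsub hC hmem
      simp only [C, Set.mem_iUnion, Finset.mem_range] at hfin
      obtain ⟨n, _, ⟨F, hF, h2⟩, h3⟩ := hfin
      refine ⟨F, ⟨n, hF, fun i hi => ?_⟩, h2⟩
      by_contra hlt
      have h4 := h3 i (by omega)
      rw [(h2 i).2 hi] at h4
      exact Bool.noConfusion h4

theorem GT5_regular {𝓖 : ℕ → Set (Finset ℕ)} (h : ∀ n, IsRegularFamily (𝓖 n))
    (hs : ∀ n p, ({p} : Finset ℕ) ∈ 𝓖 n) :
    IsRegularFamily (limFam 𝓖) ∧ ∀ p, ({p} : Finset ℕ) ∈ limFam 𝓖 :=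
  ⟨GT5_regular_aux 𝓖 h ⟨{0}, hs 0 0⟩, fun p => ⟨0, hs 0 p, fun _ _ => Nat.zero_le _⟩⟩

end Pool.Agent.H182R2.CG
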