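import Pool.Agent.H182R2.CG.GDefs

/-!
GTRA: displayability is an isomorphism invariant. (helper965)
-/

namespace Pool.Agent.H182R2.CG

open Finset Filter Topology Pool.Agent.H182R2.CB

private noncomputable def gtra_iso {X Y : Type*} [NormedAddCommGroup X] [NormedSpace ℝ X]
    [NormedAddCommGroup Y] [NormedSpace ℝ Y] (T : X ≃L[ℝ] Y) (N : Seminorm ℝ X) :
    isomGroup X N ≃* isomGroup Y (N.comp (T.symm.toLinearEquiv : Y →ₗ[ℝ] X)) where
  toFun U := ⟨T.toLinearEquiv.symm.trans (U.1.trans T.toLinearEquiv), by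
    intro y
    show N (T.symm (T (U.1 (T.symm y)))) = N (T.symm y)
    rw [ContinuousLinearEquiv.symm_apply_apply]
    exact U.2 (T.symm y)⟩
  invFun W := ⟨T.toLinearEquiv.trans (W.1.trans T.toLinearEquiv.symm), by
    intro x
    have h : N (T.symm (W.1 (T x))) = N (T.symm (T x)) := W.2 (T x)
    rw [ContinuousLinearEquiv.symm_apply_apply] at h
    exact h⟩
  left_inv U := by
    apply Subtype.ext
    apply LinearEquiv.ext
    intro x
    show T.symm (T (U.1 (T.symm (T x)))) = U.1 x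
    rw [ContinuousLinearEquiv.symm_apply_apply, ContinuousLinearEquiv.symm_apply_apply]
  right_inv W := by
    apply Subtype.ext
    apply LinearEquiv.ext
    intro y
    show T (T.symm (W.1 (T (T.symm y)))) = W.1 y
    rw [ContinuousLinearEquiv.apply_symm_apply, ContinuousLinearEquiv.apply_symm_apply]
  map_mul' U V := by
    apply Subtype.ext
    apply LinearEquiv.ext
    intro y
    show T (U.1 (V.1 (T.symm y))) = T (U.1 (T.symm (T (V.1 (T.symm y)))))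
    rw [ContinuousLinearEquiv.symm_apply_apply]

theorem GTRA {X Y : Type*} [NormedAddCommGroup X] [NormedSpace ℝ X] [NormedAddCommGroup Y]
    [NormedSpace ℝ Y] (T : X ≃L[ℝ] Y) (Γ : Type*) [Group Γ] (h : Displayable X Γ) :
    Displayable Y Γ := by
  obtain ⟨N, ⟨m, M, hm, hN⟩, ⟨φ⟩⟩ := h
  refine ⟨N.comp (T.symm.toLinearEquiv : Y →ₗ[ℝ] X),
    ⟨m / (‖(T : X →L[ℝ] Y)‖ + 1), |M| * ‖(T.symm : Y →L[ℝ] X)‖, by positivity, ?_⟩,
    ⟨φ.trans (gtra_iso T N)⟩⟩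
  intro y
  show m / (‖(T : X →L[ℝ] Y)‖ + 1) * ‖y‖ ≤ N (T.symm y) ∧
    N (T.symm y) ≤ |M| * ‖(T.symm : Y →L[ℝ] X)‖ * ‖y‖
  obtain ⟨h1, h2⟩ := hN (T.symm y)
  constructor
  · refine le_trans ?_ h1
    have h3 : ‖y‖ ≤ (‖(T : X →L[ℝ] Y)‖ + 1) * ‖T.symm y‖ := by
      have h4 : ‖(T : X →L[ℝ] Y) (T.symm y)‖ ≤ ‖(T : X →L[ℝ] Y)‖ * ‖T.symm y‖ :=
        (T : X →L[ℝ] Y).le_opNorm _
      have h5 : (T : X →L[ℝ] Y) (T.symm y) = y := T.apply_symm_apply y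
      rw [h5] at h4
      nlinarith [norm_nonneg (T.symm y)]
    have h6 : (0 : ℝ) < ‖(T : X →L[ℝ] Y)‖ + 1 := by positivity
    rw [div_mul_eq_mul_div, div_le_iff₀ h6]
    calc m * ‖y‖ ≤ m * ((‖(T : X →L[ℝ] Y)‖ + 1) * ‖T.symm y‖) :=
          mul_le_mul_of_nonneg_left h3 hm.le
      _ = m * ‖T.symm y‖ * (‖(T : X →L[ℝ] Y)‖ + 1) := by ring
  · refine h2.trans ?_
    have h4 : ‖(T.symm : Y →L[ℝ] X) y‖ ≤ ‖(T.symm : Y →L[ℝ] X)‖ * ‖y‖ :=
      (T.symm : Y →L[ℝ] X).le_opNorm _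
    have h5 : (T.symm : Y →L[ℝ] X) y = T.symm y := rfl
    rw [h5] at h4
    calc M * ‖T.symm y‖ ≤ |M| * ‖T.symm y‖ :=
          mul_le_mul_of_nonneg_right (le_abs_self M) (norm_nonneg _)
      _ ≤ |M| * (‖(T.symm : Y →L[ℝ] X)‖ * ‖y‖) := mul_le_mul_of_nonneg_left h4 (abs_nonneg M)
      _ = |M| * ‖(T.symm : Y →L[ℝ] X)‖ * ‖y‖ := by ring

end Pool.Agent.H182R2.CG
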